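import Pool.Agent.X101.CR.Exp2

open MeasureTheory Set ProbabilityTheory
open scoped ENNReal BoundedContinuousFunction

namespace Pool.Agent.X101.CR

noncomputable def XX (M : ℕ) (P : Measure ℝ) (p : (ℝ × ℝ) × (ℕ → ℝ)) : ℝ :=
  dec M p.1 (fun k => WW P (cel M p.1) (edg M p.1) (stp M) p.2 k)

lemma meas_XX (M : ℕ) (P : Measure ℝ) [IsProbabilityMeasure P] : Measurable (XX M P) := by
  unfold XX dec
  have hW : ∀ k, Measurable (fun p : (ℝ × ℝ) × (ℕ → ℝ) =>
      WW P (cel M p.1) (edg M p.1) (stp M) p.2 k) := fun k =>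
    meas_WW (c := cel M) (e := edg M) P (stp M) (meas_cel M) (meas_edg M) k
  have h1 : Measurable (fun p : (ℝ × ℝ) × (ℕ → ℝ) =>
      (2:ℝ)^((WW P (cel M p.1) (edg M p.1) (stp M) p.2 1).1 + 1)) :=
    (measurable_of_countable (fun w : E => (2:ℝ)^(w.1+1))).comp (hW 1)
  have h2 : ∀ k : ℕ, Measurable (fun p : (ℝ × ℝ) × (ℕ → ℝ) =>
      ((WW P (cel M p.1) (edg M p.1) (stp M) p.2 (k+1)).2 : ℝ) / M^k) := fun k =>
    ((measurable_of_countable (fun w : E => (w.2 : ℝ))).comp (hW (k+1))).div_const _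
  have h3 := Measurable.iSup h2
  exact h1.mul (((h3.const_mul 4).sub measurable_const).sub (measurable_snd.comp measurable_fst))

lemma dg_lt (P : Measure ℝ) [IsProbabilityMeasure P] {M : ℕ} (hM : 1 ≤ M) (θ : ℝ × ℝ) (k : ℕ)
    (w : E) (u : ℝ) : dg P (cel M θ) (edg M θ) (k+1) w u < M := by
  unfold dg
  by_cases h : ∃ j, u * gg P (cel M θ) (k+1) w < SS P (cel M θ) (edg M θ) (k+1) w (j+1)
  · obtain ⟨j, hj⟩ := h
    have hS : SS P (cel M θ) (edg M θ) (k+1) w (j+1) ≤
        SS P (cel M θ) (edg M θ) (k+1) w (M-1+1) := by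
      refine measureReal_mono ?_ (measure_ne_top _ _)
      rintro x ⟨hx1, hx2⟩
      refine ⟨hx1, ?_⟩
      rw [Nat.sub_add_cancel hM]
      exact Nat.mod_lt _ hM
    have : sInf {j | u * gg P (cel M θ) (k+1) w < SS P (cel M θ) (edg M θ) (k+1) w (j+1)} ≤ M-1 :=
      Nat.sInf_le (lt_of_lt_of_le hj hS)
    omega
  · push Not at h
    have : {j | u * gg P (cel M θ) (k+1) w < SS P (cel M θ) (edg M θ) (k+1) w (j+1)} = ∅ := by
      ext j; simp [h j]
    rw [this, Nat.sInf_empty]
    omega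

lemma path_WW (P : Measure ℝ) [IsProbabilityMeasure P] {M : ℕ} (hM : 1 ≤ M) (θ : ℝ × ℝ)
    (U : ℕ → ℝ) :
    Path M (fun k => WW P (cel M θ) (edg M θ) (stp M) U k)
      (fun k => dg P (cel M θ) (edg M θ) k (WW P (cel M θ) (edg M θ) (stp M) U k) (U k)) :=
  ⟨rfl, fun _ => rfl, fun k => dg_lt P hM θ k _ _⟩

lemma meas_cel' (M : ℕ) (θ : ℝ × ℝ) (k : ℕ) : Measurable (cel M θ k) :=
  (meas_cel M k).comp (by fun_prop : Measurable (fun x : ℝ => (θ, x)))

lemma meas_edg' (M : ℕ) (θ : ℝ × ℝ) (k : ℕ) : Measurable (edg M θ k) :=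
  (meas_edg M k).comp (by fun_prop : Measurable (fun x : ℝ => (θ, x)))

/-- the law for a fixed shift -/
lemma law_fixed (P : Measure ℝ) [IsProbabilityMeasure P] {M : ℕ} (hM : 2 ≤ M) {θ : ℝ × ℝ}
    (hθ : Good θ) : muU.map (fun U => XX M P (θ, U)) = P := by
  have hM1 : 1 ≤ M := by omega
  have hmX : Measurable (fun U => XX M P (θ, U)) :=
    (meas_XX M P).comp (by fun_prop : Measurable (fun U : ℕ → ℝ => (θ, U)))
  have : IsProbabilityMeasure (muU.map (fun U => XX M P (θ, U))) :=
    Measure.isProbabilityMeasure_map hmX.aemeasurable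
  apply ext_of_forall_integral_eq_of_IsFiniteMeasure
  intro f
  rw [integral_map hmX.aemeasurable f.continuous.aestronglyMeasurable]
  let dk : ℕ → E → ℝ := fun k w => 2^(w.1+1) * (4 * ((w.2:ℝ) / M^k) - 1 - θ.2)
  have hmdk : ∀ k, Measurable (dk k) := fun k => measurable_of_countable _
  have hmf : Measurable f := f.continuous.measurable
  have hlaw : ∀ k, muU.map (fun U => WW P (cel M θ) (edg M θ) (stp M) U (k+1)) =
      P.map (cel M θ (k+1)) := by
    intro k
    rw [Measure.ext_iff_singleton]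
    intro w
    rw [Measure.map_apply (meas_WW' P (stp M) (meas_cel' M θ) (meas_edg' M θ) (k+1))
      (measurableSet_singleton w), Measure.map_apply (meas_cel' M θ (k+1))
      (measurableSet_singleton w)]
    exact seq_law P (stp M) (meas_cel' M θ) (meas_edg' M θ) (fun _ => rfl)
      (fun k x => cel_step hM1 hθ k x) (k+1) w
  have heq : ∀ k, ∫ U, f (dk k (WW P (cel M θ) (edg M θ) (stp M) U (k+1))) ∂muU =
      ∫ x, f (dk k (cel M θ (k+1) x)) ∂P := by
    intro k
    have e1 : ∫ U, f (dk k (WW P (cel M θ) (edg M θ) (stp M) U (k+1))) ∂muU =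
        ∫ w, f (dk k w) ∂(muU.map (fun U => WW P (cel M θ) (edg M θ) (stp M) U (k+1))) := by
      rw [integral_map (meas_WW' P (stp M) (meas_cel' M θ) (meas_edg' M θ) (k+1)).aemeasurable]
      exact (hmf.comp (hmdk k)).aestronglyMeasurable
    have e2 : ∫ x, f (dk k (cel M θ (k+1) x)) ∂P =
        ∫ w, f (dk k w) ∂(P.map (cel M θ (k+1))) := by
      rw [integral_map (meas_cel' M θ (k+1)).aemeasurable]
      exact (hmf.comp (hmdk k)).aestronglyMeasurable
    rw [e1, e2, hlaw]
  have hlim1 : Filter.Tendsto (fun k => ∫ U, f (dk k (WW P (cel M θ) (edg M θ) (stp M) U (k+1))) ∂muU)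
      Filter.atTop (nhds (∫ U, f (XX M P (θ, U)) ∂muU)) := by
    apply tendsto_integral_of_dominated_convergence (fun _ => ‖f‖)
    · intro k
      exact (hmf.comp ((hmdk k).comp
        (meas_WW' P (stp M) (meas_cel' M θ) (meas_edg' M θ) (k+1)))).aestronglyMeasurable
    · exact integrable_const _
    · intro k
      exact Filter.Eventually.of_forall fun U => f.norm_coe_le_norm _
    · refine Filter.Eventually.of_forall fun U => ?_
      apply (f.continuous.tendsto _).comp
      have hp := path_WW P hM1 θ U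
      have ht := hp.tendsto hM1
      have e : ∀ k, dk k (WW P (cel M θ) (edg M θ) (stp M) U (k+1)) =
          2^((WW P (cel M θ) (edg M θ) (stp M) U 1).1+1) *
            (4 * (((WW P (cel M θ) (edg M θ) (stp M) U (k+1)).2:ℝ) / M^k) - 1 - θ.2) := by
        intro k
        have := (hp.fst k).trans (hp.fst 0).symm
        simp only [dk]
        simp only [zero_add] at this
        rw [this]
      simp only [e]
      exact (((ht.const_mul 4).sub_const 1).sub_const θ.2).const_mul _
  have hlim2 : Filter.Tendsto (fun k => ∫ x, f (dk k (cel M θ (k+1) x)) ∂P)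
      Filter.atTop (nhds (∫ x, f x ∂P)) := by
    apply tendsto_integral_of_dominated_convergence (fun _ => ‖f‖)
    · intro k
      exact (hmf.comp ((hmdk k).comp (meas_cel' M θ (k+1)))).aestronglyMeasurable
    · exact integrable_const _
    · intro k
      exact Filter.Eventually.of_forall fun U => f.norm_coe_le_norm _
    · refine Filter.Eventually.of_forall fun x => ?_
      apply (f.continuous.tendsto _).comp
      have hpos := (pos_mem hθ x).1
      have ht : Filter.Tendsto (fun k : ℕ => (⌊(M:ℝ)^k * pos θ x⌋₊ : ℝ) / (M:ℝ)^k) Filter.atTop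
          (nhds (pos θ x)) := by
        have h1 := tendsto_nat_floor_mul_div_atTop hpos
        have h2 : Filter.Tendsto (fun k : ℕ => (M:ℝ)^k) Filter.atTop Filter.atTop :=
          tendsto_pow_atTop_atTop_of_one_lt (by exact_mod_cast hM)
        have h3 := h1.comp h2
        refine h3.congr fun k => ?_
        simp [mul_comm]
      have h4 := (((ht.const_mul 4).sub_const 1).sub_const θ.2).const_mul (2^(ann θ.1 x + 1))
      rw [pos_eq] at h4
      exact h4
  simp only [heq] at hlim1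
  exact tendsto_nhds_unique hlim1 hlim2

lemma abs_real_sub_le {α : Type*} [MeasurableSpace α] (π : Measure α) [IsProbabilityMeasure π]
    (B1 B2 : Set α) : |π.real B1 - π.real B2| ≤ π.real {p | ¬ (p ∈ B1 ↔ p ∈ B2)} := by
  rw [abs_le]
  constructor
  · have h1 : π.real B2 ≤ π.real (B1 ∪ {p | ¬ (p ∈ B1 ↔ p ∈ B2)}) := by
      refine measureReal_mono ?_ (measure_ne_top _ _)
      intro p hp
      by_cases h : p ∈ B1
      · exact Or.inl h
      · right; simp only [mem_ofPred_eq]; tauto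
    have h2 := measureReal_union_le (μ := π) B1 {p | ¬ (p ∈ B1 ↔ p ∈ B2)}
    linarith
  · have h1 : π.real B1 ≤ π.real (B2 ∪ {p | ¬ (p ∈ B1 ↔ p ∈ B2)}) := by
      refine measureReal_mono ?_ (measure_ne_top _ _)
      intro p hp
      by_cases h : p ∈ B2
      · exact Or.inl h
      · right; simp only [mem_ofPred_eq]; tauto
    have h2 := measureReal_union_le (μ := π) B2 {p | ¬ (p ∈ B1 ↔ p ∈ B2)}
    linarith

lemma cost_fixed (P Q : Measure ℝ) [IsProbabilityMeasure P] [IsProbabilityMeasure Q]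
    (π : Measure (ℝ × ℝ)) [IsProbabilityMeasure π] (hP : π.map Prod.fst = P)
    (hQ : π.map Prod.snd = Q) {M : ℕ} (hM : 2 ≤ M) {q : ℝ} (hq0 : 0 < q) (hq1 : q ≤ 1)
    {θ : ℝ × ℝ} (hθ : Good θ) :
    ∫⁻ U, ENNReal.ofReal (|XX M P (θ, U) - XX M Q (θ, U)|^q) ∂muU ≤
      ∫⁻ z, ∑' k, TT M q θ k z.1 z.2 ∂π := by
  classical
  have hM1 : 1 ≤ M := by omega
  have hc := meas_cel' M θ
  have he := meas_edg' M θ
  set A : ℕ → E → ℕ → Set (ℕ → ℝ) := fun k w i =>
    {U | WW P (cel M θ) (edg M θ) (stp M) U k = w ∧ WW Q (cel M θ) (edg M θ) (stp M) U k = w ∧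
      ¬ (dg P (cel M θ) (edg M θ) k w (U k) < i ↔ dg Q (cel M θ) (edg M θ) k w (U k) < i)} with hA
  have hAm : ∀ k w i, MeasurableSet (A k w i) := by
    intro k w i
    have m1 : MeasurableSet {U : ℕ → ℝ | WW P (cel M θ) (edg M θ) (stp M) U k = w} :=
      (meas_WW' P (stp M) hc he k) (measurableSet_singleton w)
    have m2 : MeasurableSet {U : ℕ → ℝ | WW Q (cel M θ) (edg M θ) (stp M) U k = w} :=
      (meas_WW' Q (stp M) hc he k) (measurableSet_singleton w)
    have m3 : MeasurableSet {U : ℕ → ℝ | dg P (cel M θ) (edg M θ) k w (U k) < i} :=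
      ((meas_dg' P hc he k w).comp (measurable_pi_apply k)) (measurableSet_Iio (a := i))
    have m4 : MeasurableSet {U : ℕ → ℝ | dg Q (cel M θ) (edg M θ) k w (U k) < i} :=
      ((meas_dg' Q hc he k w).comp (measurable_pi_apply k)) (measurableSet_Iio (a := i))
    have : A k w i = {U | WW P (cel M θ) (edg M θ) (stp M) U k = w} ∩
        ({U | WW Q (cel M θ) (edg M θ) (stp M) U k = w} ∩
        (({U | dg P (cel M θ) (edg M θ) k w (U k) < i} \
          {U | dg Q (cel M θ) (edg M θ) k w (U k) < i}) ∪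
        ({U | dg Q (cel M θ) (edg M θ) k w (U k) < i} \
          {U | dg P (cel M θ) (edg M θ) k w (U k) < i}))) := by
      ext U
      simp only [hA, mem_ofPred_eq, mem_inter_iff, mem_union, mem_sdiff]
      tauto
    rw [this]
    exact m1.inter (m2.inter ((m3.diff m4).union (m4.diff m3)))
  have hpt : ∀ U, ENNReal.ofReal (|XX M P (θ, U) - XX M Q (θ, U)|^q) ≤
      ∑' k, ∑' w, ∑' i, wt M q k w i * (A k w i).indicator 1 U := by
    intro U
    have h1 := path_WW P hM1 θ U
    have h2 := path_WW Q hM1 θ U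
    rcases cost_paths hM1 hq0 hq1 hθ h1 h2 with h | ⟨k, hk, h⟩
    · have : |XX M P (θ, U) - XX M Q (θ, U)|^q = 0 := by
        unfold XX
        rw [h, sub_self, abs_zero, Real.zero_rpow hq0.ne']
      rw [this]; simp
    · refine h.trans ?_
      refine le_trans ?_ (ENNReal.le_tsum k)
      refine le_trans ?_ (ENNReal.le_tsum (WW P (cel M θ) (edg M θ) (stp M) U k))
      apply ENNReal.tsum_le_tsum
      intro i
      gcongr
      split_ifs with hif
      · exact bot_le
      · have hmem : U ∈ A k (WW P (cel M θ) (edg M θ) (stp M) U k) i := by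
          refine ⟨rfl, hk.symm, ?_⟩
          rw [← hk] at hif
          exact hif
        rw [indicator_of_mem hmem]
        exact le_refl _
  refine (lintegral_mono hpt).trans ?_
  have hm1 : ∀ k w i, Measurable (fun U => wt M q k w i * (A k w i).indicator 1 U) :=
    fun k w i => (measurable_one.indicator (hAm k w i)).const_mul _
  rw [lintegral_tsum (fun k => (Measurable.tsum fun w => Measurable.tsum fun i =>
    hm1 k w i).aemeasurable)]
  unfold TT
  have hmS : ∀ k w i, MeasurableSet {z : ℝ × ℝ | sS M θ k w i z.1 z.2} := fun k w i =>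
    (by fun_prop : Measurable (fun z : ℝ × ℝ => (θ, z))) (meas_sS M k w i)
  have hmG : ∀ k w, MeasurableSet {z : ℝ × ℝ | sG M θ k w z.1 z.2} := fun k w =>
    (by fun_prop : Measurable (fun z : ℝ × ℝ => (θ, z))) (meas_sG M k w)
  have hm2 : ∀ k w i, Measurable (fun z : ℝ × ℝ => wt M q k w i *
      ((if sS M θ k w i z.1 z.2 then 1 else 0) + (if sG M θ k w z.1 z.2 then 1 else 0))) := by
    intro k w i
    refine Measurable.const_mul (Measurable.add ?_ ?_) _
    · exact Measurable.ite (hmS k w i) measurable_const measurable_const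
    · exact Measurable.ite (hmG k w) measurable_const measurable_const
  rw [lintegral_tsum (fun k => (Measurable.tsum fun w => Measurable.tsum fun i =>
    hm2 k w i).aemeasurable)]
  apply ENNReal.tsum_le_tsum
  intro k
  rw [lintegral_tsum (fun w => (Measurable.tsum fun i => hm1 k w i).aemeasurable),
    lintegral_tsum (fun w => (Measurable.tsum fun i => hm2 k w i).aemeasurable)]
  apply ENNReal.tsum_le_tsum
  intro w
  rw [lintegral_tsum (fun i => (hm1 k w i).aemeasurable),
    lintegral_tsum (fun i => (hm2 k w i).aemeasurable)]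
  apply ENNReal.tsum_le_tsum
  intro i
  have m1 : Measurable (fun z : ℝ × ℝ => if sS M θ k w i z.1 z.2 then (1:ℝ≥0∞) else 0) :=
    Measurable.ite (hmS k w i) measurable_const measurable_const
  have m2 : Measurable (fun z : ℝ × ℝ => if sG M θ k w z.1 z.2 then (1:ℝ≥0∞) else 0) :=
    Measurable.ite (hmG k w) measurable_const measurable_const
  have m3 : Measurable (fun z : ℝ × ℝ => (if sS M θ k w i z.1 z.2 then (1:ℝ≥0∞) else 0) +
    (if sG M θ k w z.1 z.2 then (1:ℝ≥0∞) else 0)) := m1.add m2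
  rw [lintegral_const_mul _ (measurable_one.indicator (hAm k w i)),
    lintegral_const_mul _ m3, lintegral_add_left m1,
    lintegral_indicator_one (hAm k w i)]
  gcongr
  have i1 : ∫⁻ z, (if sS M θ k w i z.1 z.2 then (1:ℝ≥0∞) else 0) ∂π =
      π {z | sS M θ k w i z.1 z.2} := by
    rw [← lintegral_indicator_one (hmS k w i)]
    congr 1
  have i2 : ∫⁻ z, (if sG M θ k w z.1 z.2 then (1:ℝ≥0∞) else 0) ∂π =
      π {z | sG M θ k w z.1 z.2} := by
    rw [← lintegral_indicator_one (hmG k w)]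
    congr 1
  rw [i1, i2]
  refine (sep_le P (stp M) Q hc he (fun _ => rfl) (fun k x => cel_step hM1 hθ k x) k w i).trans ?_
  have hms1 : MeasurableSet {x | cel M θ k x = w ∧ edg M θ k x < i} :=
    ((hc k) (measurableSet_singleton w)).inter ((he k) (measurableSet_Iio (a := i)))
  have hms2 : MeasurableSet {x | cel M θ k x = w} := (hc k) (measurableSet_singleton w)
  have r1 : |SS P (cel M θ) (edg M θ) k w i - SS Q (cel M θ) (edg M θ) k w i| ≤
      π.real {z | sS M θ k w i z.1 z.2} := by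
    have a1 : SS P (cel M θ) (edg M θ) k w i =
        π.real (Prod.fst ⁻¹' {x | cel M θ k x = w ∧ edg M θ k x < i}) := by
      unfold SS
      rw [← hP, map_measureReal_apply measurable_fst hms1]
    have a2 : SS Q (cel M θ) (edg M θ) k w i =
        π.real (Prod.snd ⁻¹' {x | cel M θ k x = w ∧ edg M θ k x < i}) := by
      unfold SS
      rw [← hQ, map_measureReal_apply measurable_snd hms1]
    rw [a1, a2]
    exact abs_real_sub_le π _ _
  have r2 : |gg P (cel M θ) k w - gg Q (cel M θ) k w| ≤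
      π.real {z | sG M θ k w z.1 z.2} := by
    have a1 : gg P (cel M θ) k w = π.real (Prod.fst ⁻¹' {x | cel M θ k x = w}) := by
      unfold gg
      rw [← hP, map_measureReal_apply measurable_fst hms2]
    have a2 : gg Q (cel M θ) k w = π.real (Prod.snd ⁻¹' {x | cel M θ k x = w}) := by
      unfold gg
      rw [← hQ, map_measureReal_apply measurable_snd hms2]
    rw [a1, a2]
    exact abs_real_sub_le π _ _
  calc ENNReal.ofReal _ ≤ ENNReal.ofReal (π.real {z | sS M θ k w i z.1 z.2} +
        π.real {z | sG M θ k w z.1 z.2}) := ENNReal.ofReal_le_ofReal (add_le_add r1 r2)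
    _ = _ := by
      rw [ENNReal.ofReal_add measureReal_nonneg measureReal_nonneg, ofReal_measureReal,
        ofReal_measureReal]

noncomputable def muT : Measure (ℝ × ℝ) :=
  (volume.restrict (Ico (1:ℝ) 2)).prod (volume.restrict (Ico (0:ℝ) 1))

instance : IsProbabilityMeasure (volume.restrict (Ico (1:ℝ) 2)) := ⟨by simp; norm_num⟩
instance : IsProbabilityMeasure (volume.restrict (Ico (0:ℝ) 1)) := ⟨by simp⟩
instance : IsProbabilityMeasure muT := by unfold muT; infer_instance

lemma ae_good : ∀ᵐ θ ∂muT, Good θ := by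
  have h : muT = (volume.restrict ((Ico (1:ℝ) 2) ×ˢ (Ico (0:ℝ) 1))) := by
    unfold muT
    rw [Measure.prod_restrict]; rfl
  rw [h]
  filter_upwards [ae_restrict_mem (measurableSet_Ico.prod measurableSet_Ico)] with θ hθ
  exact ⟨hθ.1.1, hθ.1.2, hθ.2.1, hθ.2.2⟩

noncomputable def mu : Measure ((ℝ × ℝ) × (ℕ → ℝ)) := muT.prod muU

instance : IsProbabilityMeasure mu := by unfold mu; infer_instance

lemma law_all (P : Measure ℝ) [IsProbabilityMeasure P] {M : ℕ} (hM : 2 ≤ M) :
    mu.map (XX M P) = P := by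
  ext B hB
  rw [Measure.map_apply (meas_XX M P) hB]
  unfold mu
  rw [Measure.prod_apply ((meas_XX M P) hB)]
  have : ∀ᵐ θ ∂muT, muU (Prod.mk θ ⁻¹' (XX M P ⁻¹' B)) = P B := by
    filter_upwards [ae_good] with θ hθ
    have h := law_fixed P hM hθ
    conv_rhs => rw [← h]
    have hmm : Measurable (fun U : ℕ → ℝ => XX M P (θ, U)) := (meas_XX M P).comp
      (by fun_prop : Measurable (fun U : ℕ → ℝ => (θ, U)))
    rw [Measure.map_apply hmm hB]
    rfl
  rw [lintegral_congr_ae this]
  simp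

lemma cost_all (P Q : Measure ℝ) [IsProbabilityMeasure P] [IsProbabilityMeasure Q]
    (π : Measure (ℝ × ℝ)) [IsProbabilityMeasure π] (hP : π.map Prod.fst = P)
    (hQ : π.map Prod.snd = Q) {M M' : ℕ} (hMM : M = 4 * M') (hM' : 1 ≤ M')
    {q : ℝ} (hq : 1/2 ≤ q) (hq1 : q < 1)
    (h1 : (M:ℝ)^(1-q) ≤ 4) (h1' : 2 ≤ (M:ℝ)^(1-q)) (h2 : 2 ≤ (M:ℝ)^q) :
    ∫⁻ ω, ENNReal.ofReal (|XX M P ω - XX M Q ω|^q) ∂mu ≤
      17056 * ∫⁻ z, ENNReal.ofReal (|z.1 - z.2|^q) ∂π := by
  have hM : 2 ≤ M := by omega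
  have hmX : Measurable (fun ω => ENNReal.ofReal (|XX M P ω - XX M Q ω|^q)) := by
    have a1 := meas_XX M P
    have a2 := meas_XX M Q
    fun_prop
  have hTm : Measurable (fun p : (ℝ × ℝ) × (ℝ × ℝ) => ∑' k, TT M q p.1 k p.2.1 p.2.2) :=
    Measurable.tsum fun k => meas_TT M q k
  unfold mu
  rw [lintegral_prod _ hmX.aemeasurable]
  calc ∫⁻ θ, ∫⁻ U, ENNReal.ofReal (|XX M P (θ, U) - XX M Q (θ, U)|^q) ∂muU ∂muT ≤
      ∫⁻ θ, ∫⁻ z, ∑' k, TT M q θ k z.1 z.2 ∂π ∂muT := by
        apply lintegral_mono_ae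
        filter_upwards [ae_good] with θ hθ
        exact cost_fixed P Q π hP hQ hM (by linarith) hq1.le hθ
    _ = ∫⁻ z, ∫⁻ θ, ∑' k, TT M q θ k z.1 z.2 ∂muT ∂π :=
        lintegral_lintegral_swap hTm.aemeasurable
    _ ≤ ∫⁻ z, ENNReal.ofReal (17056 * |z.1 - z.2|^q) ∂π := by
        apply lintegral_mono
        intro z
        have hTz : Measurable (fun θ : ℝ × ℝ => ∑' k, TT M q θ k z.1 z.2) :=
          hTm.comp (by fun_prop : Measurable (fun θ : ℝ × ℝ => (θ, z)))
        simp only
        unfold muT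
        rw [lintegral_prod _ hTz.aemeasurable]
        exact int_all hMM hM' hq hq1 h1 h1' h2 z.1 z.2
    _ = 17056 * ∫⁻ z, ENNReal.ofReal (|z.1 - z.2|^q) ∂π := by
        rw [← lintegral_const_mul' _ _ (by norm_num)]
        congr 1; funext z
        rw [ENNReal.ofReal_mul (by norm_num)]
        simp

end Pool.Agent.X101.CR
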