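import Mathlib

open MeasureTheory Set
open scoped ENNReal

namespace Pool.Agent.X101.CR

lemma exists_M {q : ℝ} (hq : 1/2 ≤ q) (hq1 : q < 1) :
    ∃ M : ℕ, 4 ∣ M ∧ 4 ≤ M ∧ 2 ≤ (M:ℝ)^(1-q) ∧ (M:ℝ)^(1-q) ≤ 4 ∧ 2 ≤ (M:ℝ)^q := by
  set x : ℝ := (2:ℝ)^(1/(1-q)) with hx
  have h1q : 0 < 1 - q := by linarith
  have hexp : 2 ≤ 1/(1-q) := by rw [le_div_iff₀ h1q]; linarith
  have hx4 : 4 ≤ x := by
    have : (2:ℝ)^(2:ℝ) ≤ x := Real.rpow_le_rpow_of_exponent_le (by norm_num) hexp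
    have h4 : (2:ℝ)^(2:ℝ) = 4 := by norm_num
    linarith
  have hxq : x^(1-q) = 2 := by
    rw [hx, ← Real.rpow_mul (by norm_num), one_div, inv_mul_cancel₀ h1q.ne', Real.rpow_one]
  refine ⟨4 * ⌈x/4⌉₊, dvd_mul_right _ _, ?_, ?_, ?_, ?_⟩
  · have : 0 < ⌈x/4⌉₊ := Nat.ceil_pos.mpr (by linarith)
    omega
  · have h1 : x ≤ ((4 * ⌈x/4⌉₊ : ℕ) : ℝ) := by
      have := Nat.le_ceil (x/4); push_cast; linarith
    calc (2:ℝ) = x^(1-q) := hxq.symm
      _ ≤ _ := Real.rpow_le_rpow (by linarith) h1 h1q.le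
  · have h1 : ((4 * ⌈x/4⌉₊ : ℕ) : ℝ) ≤ 2 * x := by
      have := Nat.ceil_lt_add_one (show 0 ≤ x/4 by linarith); push_cast; linarith
    calc ((4 * ⌈x/4⌉₊ : ℕ) : ℝ)^(1-q) ≤ (2*x)^(1-q) := Real.rpow_le_rpow (by positivity) h1 h1q.le
      _ = 2^(1-q) * 2 := by rw [Real.mul_rpow (by norm_num) (by linarith), hxq]
      _ ≤ 2^(1:ℝ) * 2 := by
        gcongr
        · norm_num
        · linarith
      _ = 4 := by norm_num
  · have h1 : (4:ℝ) ≤ ((4 * ⌈x/4⌉₊ : ℕ) : ℝ) := by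
      have : 0 < ⌈x/4⌉₊ := Nat.ceil_pos.mpr (by linarith)
      have : (1:ℝ) ≤ ⌈x/4⌉₊ := by exact_mod_cast this
      push_cast; linarith
    have h2 : (4:ℝ)^(1/2:ℝ) = 2 := by
      rw [show (4:ℝ) = 2^(2:ℝ) by norm_num, ← Real.rpow_mul (by norm_num)]; norm_num
    calc (2:ℝ) = (4:ℝ)^(1/2:ℝ) := h2.symm
      _ ≤ 4^q := Real.rpow_le_rpow_of_exponent_le (by norm_num) hq
      _ ≤ _ := Real.rpow_le_rpow (by norm_num) h1 (by linarith)

/-- `φ_h(k) = M^{-kq} min(1, M^k h)`. -/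
noncomputable def phi (M q h : ℝ) (k : ℕ) : ℝ := (M^q)⁻¹^k * min 1 (M^k * h)

lemma phi_succ (M q h : ℝ) (k : ℕ) : phi M q h (k+1) = (M^q)⁻¹ * phi M q (M*h) k := by
  unfold phi; rw [pow_succ, pow_succ]; ring_nf

lemma phi_nonneg {M q h : ℝ} (hM : 0 < M) (hh : 0 ≤ h) (k : ℕ) : 0 ≤ phi M q h k := by
  unfold phi; positivity

lemma phi_sum_aux {M q : ℝ} (hM : 1 ≤ M) (h1 : 2 ≤ M^(1-q)) (h2 : 2 ≤ M^q)
    (hq0 : 0 ≤ q) (hq1 : q ≤ 1) (n : ℕ) :
    (∀ h, 1 ≤ h → ∑ k ∈ Finset.range n, phi M q h k ≤ 2) ∧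
    (∀ h, 0 ≤ h → h ≤ 1 → ∑ k ∈ Finset.range n, phi M q h k ≤ 4 * h^q - h) := by
  have hM0 : 0 < M := by linarith
  have ha : (M^q)⁻¹ ≤ 1/2 := by
    rw [inv_le_comm₀ (by linarith) (by norm_num)]; linarith
  have ha0 : 0 < (M^q)⁻¹ := by positivity
  have hpow : ∀ h : ℝ, 0 ≤ h → h ≤ 1 → h ≤ h^q := by
    intro h h0 h1
    calc h = h^(1:ℝ) := (Real.rpow_one h).symm
      _ ≤ h^q := Real.rpow_le_rpow_of_exponent_ge' h0 h1 hq0 hq1
  induction n with
  | zero =>
    refine ⟨fun h _ => by simp, fun h h0 h1 => ?_⟩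
    have := hpow h h0 h1
    simp; linarith
  | succ n ih =>
    have hs : ∀ h, ∑ k ∈ Finset.range (n+1), phi M q h k =
        (M^q)⁻¹ * (∑ k ∈ Finset.range n, phi M q (M*h) k) + min 1 h := by
      intro h
      rw [Finset.sum_range_succ', Finset.mul_sum]
      congr 1
      · apply Finset.sum_congr rfl; intro k _; exact phi_succ M q h k
      · simp [phi]
    refine ⟨fun h hh => ?_, fun h h0 hh1 => ?_⟩
    · rw [hs, min_eq_left hh]
      have := ih.1 (M*h) (by nlinarith)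
      nlinarith
    · rw [hs, min_eq_right hh1]
      have hp := hpow h h0 hh1
      by_cases hc : 1 ≤ M * h
      · have h3 := ih.1 (M*h) hc
        have h4 : (M^q)⁻¹ ≤ h^q := by
          have : 1 ≤ M^q * h^q := by
            rw [← Real.mul_rpow hM0.le h0]
            exact Real.one_le_rpow hc hq0
          rw [inv_le_iff_one_le_mul₀ (by linarith)]
          linarith
        nlinarith
      · push Not at hc
        have h3 := ih.2 (M*h) (by positivity) hc.le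
        have h5 : (M^q)⁻¹ * (4 * (M*h)^q - M*h) = 4 * h^q - M^(1-q) * h := by
          rw [Real.mul_rpow hM0.le h0, Real.rpow_sub hM0, Real.rpow_one]
          have : M^q ≠ 0 := by positivity
          field_simp
        have h6 : (M^q)⁻¹ * (∑ k ∈ Finset.range n, phi M q (M*h) k) ≤
            (M^q)⁻¹ * (4 * (M*h)^q - M*h) := by gcongr
        rw [h5] at h6
        nlinarith

lemma phi_sum {M q : ℝ} (hM : 1 ≤ M) (h1 : 2 ≤ M^(1-q)) (h2 : 2 ≤ M^q)
    (hq0 : 0 ≤ q) (hq1 : q ≤ 1) (h : ℝ) (h0 : 0 ≤ h) (n : ℕ) :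
    ∑ k ∈ Finset.range n, phi M q h k ≤ 4 * h^q := by
  rcases le_total 1 h with hh | hh
  · have := (phi_sum_aux hM h1 h2 hq0 hq1 n).1 h hh
    have : 1 ≤ h^q := Real.one_le_rpow hh hq0
    linarith
  · have := (phi_sum_aux hM h1 h2 hq0 hq1 n).2 h h0 hh
    linarith

lemma phi_tsum {M q : ℝ} (hM : 1 ≤ M) (h1 : 2 ≤ M^(1-q)) (h2 : 2 ≤ M^q)
    (hq0 : 0 ≤ q) (hq1 : q ≤ 1) (h : ℝ) (h0 : 0 ≤ h) :
    ∑' k, ENNReal.ofReal (phi M q h k) ≤ ENNReal.ofReal (4 * h^q) := by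
  rw [ENNReal.tsum_eq_iSup_nat]
  apply iSup_le
  intro n
  rw [← ENNReal.ofReal_sum_of_nonneg (fun k _ => phi_nonneg (by linarith) h0 k)]
  exact ENNReal.ofReal_le_ofReal (phi_sum hM h1 h2 hq0 hq1 h h0 n)

/-- shift lemma -/
lemma shift_int (N : ℕ) (hN : 0 < N) (a b : ℝ) (ha : 0 ≤ a) (hab : a ≤ b) :
    ∫⁻ s in Ico (0:ℝ) 1, ENNReal.ofReal ((⌊b + N * s⌋₊ : ℝ) - ⌊a + N * s⌋₊) =
      ENNReal.ofReal (b - a) := by
  have hNR : (0:ℝ) < N := by exact_mod_cast hN
  have hfr : ∀ a : ℝ, ∫ s in (0:ℝ)..1, Int.fract (a + N * s) =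
      (N:ℝ)⁻¹ * ∫ s in (0:ℝ)..N, Int.fract s := by
    intro a
    have h1 := intervalIntegral.integral_comp_add_mul (a := 0) (b := 1)
      (fun x => Int.fract x) hNR.ne' a
    rw [h1]
    simp only [smul_eq_mul, mul_zero, mul_one, add_zero]
    congr 1
    have hper : Function.Periodic (fun x : ℝ => Int.fract x) (N:ℝ) := by
      intro x; simp
    have := hper.intervalIntegral_add_eq a 0
    simpa using this
  have hint : ∀ a : ℝ, IntegrableOn (fun s => Int.fract (a + N * s)) (Ico (0:ℝ) 1) := by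
    intro a
    apply Measure.integrableOn_of_bounded (M := 1) (by simp)
    · exact (measurable_fract.comp (by fun_prop)).aestronglyMeasurable
    · refine Filter.Eventually.of_forall fun s => ?_
      rw [Real.norm_of_nonneg (Int.fract_nonneg _)]
      exact (Int.fract_lt_one _).le
  have hfl : ∀ s ∈ Ico (0:ℝ) 1, ((⌊b + N * s⌋₊ : ℝ) - ⌊a + N * s⌋₊) =
      (b - a) - (Int.fract (b + N * s) - Int.fract (a + N * s)) := by
    intro s hs
    have e1 : (⌊b + N * s⌋₊ : ℝ) = b + N * s - Int.fract (b + N * s) := by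
      rw [natCast_floor_eq_intCast_floor (by have := hs.1; nlinarith)]
      rw [Int.self_sub_fract]
    have e2 : (⌊a + N * s⌋₊ : ℝ) = a + N * s - Int.fract (a + N * s) := by
      rw [natCast_floor_eq_intCast_floor (by have := hs.1; nlinarith)]
      rw [Int.self_sub_fract]
    rw [e1, e2]; ring
  have hnn : ∀ s, 0 ≤ ((⌊b + N * s⌋₊ : ℝ) - ⌊a + N * s⌋₊) := by
    intro s
    have : ⌊a + N * s⌋₊ ≤ ⌊b + N * s⌋₊ := Nat.floor_le_floor (by linarith)
    have : (⌊a + N * s⌋₊ : ℝ) ≤ ⌊b + N * s⌋₊ := by exact_mod_cast this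
    linarith
  have hI : IntegrableOn (fun s => (b - a) - (Int.fract (b + N * s) - Int.fract (a + N * s)))
      (Ico (0:ℝ) 1) := by
    apply Integrable.sub
    · exact integrable_const _
    · exact (hint b).sub (hint a)
  have hI2 : IntegrableOn (fun s => ((⌊b + N * s⌋₊ : ℝ) - ⌊a + N * s⌋₊)) (Ico (0:ℝ) 1) :=
    hI.congr_fun (fun s hs => (hfl s hs).symm) measurableSet_Ico
  rw [← ofReal_integral_eq_lintegral_ofReal hI2 (Filter.Eventually.of_forall hnn)]
  congr 1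
  rw [setIntegral_congr_fun measurableSet_Ico hfl]
  have hIb : ∫ s in Ico (0:ℝ) 1, Int.fract (b + N * s) = (N:ℝ)⁻¹ * ∫ s in (0:ℝ)..N, Int.fract s := by
    rw [integral_Ico_eq_integral_Ioo, ← integral_Ioc_eq_integral_Ioo,
      ← intervalIntegral.integral_of_le zero_le_one, hfr b]
  have hIa : ∫ s in Ico (0:ℝ) 1, Int.fract (a + N * s) = (N:ℝ)⁻¹ * ∫ s in (0:ℝ)..N, Int.fract s := by
    rw [integral_Ico_eq_integral_Ioo, ← integral_Ioc_eq_integral_Ioo,
      ← intervalIntegral.integral_of_le zero_le_one, hfr a]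
  have hd : ∫ s in Ico (0:ℝ) 1, (Int.fract (b + N * s) - Int.fract (a + N * s)) = 0 := by
    have := integral_sub (hint b) (hint a)
    rw [this, hIa, hIb, sub_self]
  have hIfr : IntegrableOn (fun s => Int.fract (b + N * s) - Int.fract (a + N * s))
      (Ico (0:ℝ) 1) := (hint b).sub (hint a)
  have hc : IntegrableOn (fun _ : ℝ => b - a) (Ico (0:ℝ) 1) := integrable_const _
  have := integral_sub hc hIfr
  rw [this, hd]
  simp

lemma H_sum {q : ℝ} (hq : 1/2 ≤ q) (n : ℕ) :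
    (∀ b : ℝ, b < 1 → ∑ i ∈ Finset.range n, (if (2:ℝ)^i ≤ b then ((2:ℝ)^q)^i else 0) = 0) ∧
    (∀ b : ℝ, 1 ≤ b → ∑ i ∈ Finset.range n, (if (2:ℝ)^i ≤ b then ((2:ℝ)^q)^i else 0) ≤
      4 * b^q - 5/2) := by
  have h2q : 1.4 ≤ (2:ℝ)^q := by
    have h1 : (2:ℝ)^(1/2:ℝ) ≤ 2^q := Real.rpow_le_rpow_of_exponent_le (by norm_num) hq
    rw [← Real.sqrt_eq_rpow] at h1
    have : 1.4 ≤ Real.sqrt 2 := by
      apply Real.le_sqrt_of_sq_le; norm_num
    linarith
  have hz : ∀ b : ℝ, b < 1 → ∀ i : ℕ, ¬ ((2:ℝ)^i ≤ b) := by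
    intro b hb i h
    have : (1:ℝ) ≤ 2^i := one_le_pow₀ (by norm_num)
    linarith
  have hone : ∀ b : ℝ, 1 ≤ b → 1 ≤ b^q := fun b hb => Real.one_le_rpow hb (by linarith)
  induction n with
  | zero => 
    refine ⟨fun b _ => by simp, fun b hb => ?_⟩
    have := hone b hb
    simp; linarith
  | succ n ih =>
    refine ⟨fun b hb => Finset.sum_eq_zero fun i _ => by rw [if_neg (hz b hb i)], fun b hb => ?_⟩
    rw [Finset.sum_range_succ']
    have hs : ∑ k ∈ Finset.range n, (if (2:ℝ)^(k+1) ≤ b then ((2:ℝ)^q)^(k+1) else 0) =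
        (2:ℝ)^q * ∑ k ∈ Finset.range n, (if (2:ℝ)^k ≤ b/2 then ((2:ℝ)^q)^k else 0) := by
      rw [Finset.mul_sum]
      apply Finset.sum_congr rfl
      intro k _
      have : ((2:ℝ)^(k+1) ≤ b) ↔ ((2:ℝ)^k ≤ b/2) := by
        rw [pow_succ, le_div_iff₀ (by norm_num)]
      by_cases h : (2:ℝ)^k ≤ b/2
      · rw [if_pos (this.mpr h), if_pos h]; ring
      · rw [if_neg (fun h' => h (this.mp h')), if_neg h, mul_zero]
    rw [hs]
    simp only [pow_zero]
    rw [if_pos hb]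
    by_cases hb2 : b/2 < 1
    · rw [ih.1 _ hb2]
      have := hone b hb
      linarith
    · push Not at hb2
      have h3 := ih.2 _ hb2
      have h4 : (2:ℝ)^q * (4 * (b/2)^q - 5/2) = 4 * b^q - 5/2 * 2^q := by
        rw [Real.div_rpow (by linarith) (by norm_num)]
        have : (2:ℝ)^q ≠ 0 := by positivity
        field_simp
      have h5 : (2:ℝ)^q * ∑ k ∈ Finset.range n, (if (2:ℝ)^k ≤ b/2 then ((2:ℝ)^q)^k else 0) ≤
        (2:ℝ)^q * (4 * (b/2)^q - 5/2) := by gcongr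
      rw [h4] at h5
      linarith

/-- measure of the shift radii separating `a ≤ b` at scale `2^i`. -/
lemma ann_meas (a b : ℝ) (ha : 0 ≤ a) (hab : a ≤ b) (i : ℕ) :
    volume ({ρ : ℝ | a < 2^i * ρ ∧ ¬ b < 2^i * ρ} ∩ Ico 1 2) ≤
      (if (2:ℝ)^i ≤ b then ENNReal.ofReal (4 * (b - a) / b) else 0) := by
  have h2i : (0:ℝ) < 2^i := by positivity
  split_ifs with hb
  · have hb0 : 0 < b := by linarith
    by_cases hcase : b ≤ 4 * (b - a)
    · calc volume ({ρ : ℝ | a < 2^i * ρ ∧ ¬ b < 2^i * ρ} ∩ Ico 1 2) ≤ volume (Ico (1:ℝ) 2) :=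
            measure_mono inter_subset_right
        _ = ENNReal.ofReal 1 := by rw [Real.volume_Ico]; norm_num
        _ ≤ _ := by
          apply ENNReal.ofReal_le_ofReal
          rw [le_div_iff₀ hb0]; linarith
    · push Not at hcase
      by_cases hi : b/4 < 2^i
      · calc volume ({ρ : ℝ | a < 2^i * ρ ∧ ¬ b < 2^i * ρ} ∩ Ico 1 2)
            ≤ volume (Ioc (a/2^i) (b/2^i)) := by
              apply measure_mono
              rintro ρ ⟨⟨h1, h2⟩, h3⟩
              push Not at h2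
              exact ⟨by rw [div_lt_iff₀ h2i]; linarith, by rw [le_div_iff₀ h2i]; linarith⟩
          _ = ENNReal.ofReal ((b - a)/2^i) := by rw [Real.volume_Ioc]; ring_nf
          _ ≤ _ := by
            apply ENNReal.ofReal_le_ofReal
            rw [div_le_div_iff₀ h2i hb0]
            nlinarith
      · push Not at hi
        have : {ρ : ℝ | a < 2^i * ρ ∧ ¬ b < 2^i * ρ} ∩ Ico 1 2 = ∅ := by
          ext ρ
          simp only [mem_inter_iff, mem_ofPred_eq, mem_Ico, mem_empty_iff_false, iff_false]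
          rintro ⟨⟨h1, h2⟩, h3, h4⟩
          nlinarith
        rw [this]; simp
  · push Not at hb
    have : {ρ : ℝ | a < 2^i * ρ ∧ ¬ b < 2^i * ρ} ∩ Ico 1 2 = ∅ := by
      ext ρ
      simp only [mem_inter_iff, mem_ofPred_eq, mem_Ico, mem_empty_iff_false, iff_false]
      rintro ⟨⟨h1, h2⟩, h3, h4⟩
      push Not at h2
      nlinarith
    rw [this]; simp

lemma ann_sum {q : ℝ} (hq : 1/2 ≤ q) (hq1 : q < 1) (a b : ℝ) (ha : 0 ≤ a) (hab : a ≤ b) :
    ∑' i : ℕ, ENNReal.ofReal (((2:ℝ)^q)^i) *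
      volume ({ρ : ℝ | a < 2^i * ρ ∧ ¬ b < 2^i * ρ} ∩ Ico 1 2) ≤
    ENNReal.ofReal (16 * (b - a)^q) := by
  by_cases hb : b < 1
  · have : ∀ i : ℕ, ENNReal.ofReal (((2:ℝ)^q)^i) *
      volume ({ρ : ℝ | a < 2^i * ρ ∧ ¬ b < 2^i * ρ} ∩ Ico 1 2) = 0 := by
      intro i
      have h := ann_meas a b ha hab i
      rw [if_neg (by
        have : (1:ℝ) ≤ 2^i := one_le_pow₀ (by norm_num)
        linarith)] at h
      rw [le_antisymm h bot_le]; simp
    simp only [this, tsum_zero]; exact bot_le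
  · push Not at hb
    have hb0 : 0 < b := by linarith
    have hstep : ∀ i : ℕ, ENNReal.ofReal (((2:ℝ)^q)^i) *
      volume ({ρ : ℝ | a < 2^i * ρ ∧ ¬ b < 2^i * ρ} ∩ Ico 1 2) ≤
      ENNReal.ofReal (if (2:ℝ)^i ≤ b then ((2:ℝ)^q)^i else 0) * ENNReal.ofReal (4 * (b - a) / b) := by
      intro i
      have h := ann_meas a b ha hab i
      split_ifs at h ⊢ with h2
      · gcongr
      · rw [le_antisymm h bot_le]; simp
    refine (ENNReal.tsum_le_tsum hstep).trans ?_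
    rw [ENNReal.tsum_mul_right]
    have hsum : ∑' i : ℕ, ENNReal.ofReal (if (2:ℝ)^i ≤ b then ((2:ℝ)^q)^i else 0) ≤
        ENNReal.ofReal (4 * b^q) := by
      rw [ENNReal.tsum_eq_iSup_nat]
      apply iSup_le
      intro n
      rw [← ENNReal.ofReal_sum_of_nonneg (fun k _ => by split_ifs <;> positivity)]
      apply ENNReal.ofReal_le_ofReal
      have := (H_sum hq n).2 b hb
      linarith
    calc _ ≤ ENNReal.ofReal (4 * b^q) * ENNReal.ofReal (4 * (b - a) / b) := by gcongr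
      _ = ENNReal.ofReal (4 * b^q * (4 * (b - a) / b)) :=
        (ENNReal.ofReal_mul (by positivity)).symm
      _ ≤ _ := by
        apply ENNReal.ofReal_le_ofReal
        rcases (sub_nonneg.mpr hab).lt_or_eq with hd | hd
        · have h1 : (b - a)^(1-q) ≤ b^(1-q) :=
            Real.rpow_le_rpow hd.le (by linarith) (by linarith)
          have h2 : (b - a) = (b-a)^q * (b-a)^(1-q) := by
            rw [← Real.rpow_add hd]; simp
          have h3 : b = b^q * b^(1-q) := by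
            rw [← Real.rpow_add hb0]; simp
          have h4 : 4 * b^q * (4 * (b - a) / b) = 16 * (b-a)^q * ((b-a)^(1-q) / b^(1-q)) := by
            have hbq : b^q ≠ 0 := by positivity
            have hbq1 : b^(1-q) ≠ 0 := by positivity
            have h7 : b^q * (b-a) / b = (b-a)^q * ((b-a)^(1-q) / b^(1-q)) := by
              calc b^q * (b-a) / b = b^q * ((b-a)^q * (b-a)^(1-q)) / (b^q * b^(1-q)) := by
                    rw [← h2, ← h3]
                _ = _ := by field_simp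
            calc 4 * b^q * (4 * (b - a) / b) = 16 * (b^q * (b-a) / b) := by ring
              _ = _ := by rw [h7]; ring
          rw [h4]
          have h5 : (b-a)^(1-q) / b^(1-q) ≤ 1 := by
            rw [div_le_one (by positivity)]; exact h1
          have h6 : 0 ≤ 16 * (b-a)^q := by positivity
          nlinarith
        · rw [← hd]; simp
          positivity

end Pool.Agent.X101.CR
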