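import Pool.Agent.X101.CR.Seq
import Pool.Agent.X101.CR.Geo

open MeasureTheory Set
open scoped ENNReal

namespace Pool.Agent.X101.CR

noncomputable def ann (ρ x : ℝ) : ℕ := sInf {m : ℕ | |x| < 2^m * ρ}

noncomputable def pos (θ : ℝ × ℝ) (x : ℝ) : ℝ := (x / 2^(ann θ.1 x + 1) + 1 + θ.2) / 4

noncomputable def cel (M : ℕ) (θ : ℝ × ℝ) : ℕ → ℝ → E
  | 0, _ => (0,0)
  | k+1, x => (ann θ.1 x, ⌊(M:ℝ)^k * pos θ x⌋₊)

noncomputable def edg (M : ℕ) (θ : ℝ × ℝ) : ℕ → ℝ → ℕ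
  | 0, x => ann θ.1 x
  | k+1, x => ⌊(M:ℝ)^(k+1) * pos θ x⌋₊ % M

def stp (M : ℕ) : ℕ → E → ℕ → E
  | 0, _, j => (j, 0)
  | _+1, w, j => (w.1, M * w.2 + j)

def Good (θ : ℝ × ℝ) : Prop := 1 ≤ θ.1 ∧ θ.1 < 2 ∧ 0 ≤ θ.2 ∧ θ.2 < 1

lemma meas_ann : Measurable (fun p : (ℝ × ℝ) × ℝ => ann p.1.1 p.2) := by
  apply meas_sInf
  intro m
  apply measurableSet_lt <;> fun_prop

lemma meas_pos : Measurable (fun p : (ℝ × ℝ) × ℝ => pos p.1 p.2) := by
  unfold pos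
  have h1 : Measurable (fun p : (ℝ × ℝ) × ℝ => (2:ℝ)^(ann p.1.1 p.2 + 1)) :=
    (measurable_of_countable (fun n : ℕ => (2:ℝ)^(n+1))).comp meas_ann
  fun_prop

lemma meas_cel (M : ℕ) (k : ℕ) : Measurable (fun p : (ℝ × ℝ) × ℝ => cel M p.1 k p.2) := by
  cases k with
  | zero => exact measurable_const
  | succ k =>
    exact meas_ann.prodMk (Nat.measurable_floor.comp (measurable_const.mul meas_pos))

lemma meas_edg (M : ℕ) (k : ℕ) : Measurable (fun p : (ℝ × ℝ) × ℝ => edg M p.1 k p.2) := by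
  cases k with
  | zero => exact meas_ann
  | succ k =>
    exact (measurable_of_countable (fun n : ℕ => n % M)).comp
      (Nat.measurable_floor.comp (measurable_const.mul meas_pos))

lemma ann_nonempty {ρ : ℝ} (hρ : 1 ≤ ρ) (x : ℝ) : Set.Nonempty {m : ℕ | |x| < 2^m * ρ} := by
  obtain ⟨m, hm⟩ := pow_unbounded_of_one_lt |x| (show (1:ℝ) < 2 by norm_num)
  refine ⟨m, lt_of_lt_of_le hm ?_⟩
  have : (0:ℝ) < 2^m := by positivity
  nlinarith

lemma ann_spec {ρ : ℝ} (hρ : 1 ≤ ρ) (x : ℝ) : |x| < 2^(ann ρ x) * ρ :=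
  Nat.sInf_mem (ann_nonempty hρ x)

lemma ann_lt_iff {ρ : ℝ} (hρ : 1 ≤ ρ) (x : ℝ) (j : ℕ) : ann ρ x < j + 1 ↔ |x| < 2^j * ρ := by
  constructor
  · intro h
    refine lt_of_lt_of_le (ann_spec hρ x) ?_
    have : (2:ℝ)^(ann ρ x) ≤ 2^j := pow_le_pow_right₀ (by norm_num) (by omega)
    nlinarith
  · intro h
    have : ann ρ x ≤ j := Nat.sInf_le h
    omega

lemma pos_mem {θ : ℝ × ℝ} (hθ : Good θ) (x : ℝ) : 0 ≤ pos θ x ∧ pos θ x < 1 := by
  obtain ⟨h1, h2, h3, h4⟩ := hθ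
  have hx := ann_spec h1 x
  have hT : (0:ℝ) < 2^(ann θ.1 x + 1) := by positivity
  have hx2 : |x| < 2^(ann θ.1 x + 1) := by
    rw [pow_succ]
    have : (0:ℝ) < 2^(ann θ.1 x) := by positivity
    nlinarith
  rw [abs_lt] at hx2
  have a1 : -1 < x / 2^(ann θ.1 x + 1) := by rw [lt_div_iff₀ hT]; linarith [hx2.1]
  have a2 : x / 2^(ann θ.1 x + 1) < 1 := by rw [div_lt_iff₀ hT]; linarith [hx2.2]
  unfold pos
  constructor <;> linarith

lemma pos_eq (θ : ℝ × ℝ) (x : ℝ) : 2^(ann θ.1 x + 1) * (4 * pos θ x - 1 - θ.2) = x := by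
  unfold pos
  have hT : (2:ℝ)^(ann θ.1 x + 1) ≠ 0 := by positivity
  field_simp
  ring

lemma cel_zero (M : ℕ) (θ : ℝ × ℝ) (x : ℝ) : cel M θ 0 x = (0,0) := rfl

lemma floor_rec {M : ℕ} (hM : 1 ≤ M) (k : ℕ) (y : ℝ) :
    ⌊(M:ℝ)^(k+1) * y⌋₊ = M * ⌊(M:ℝ)^k * y⌋₊ + ⌊(M:ℝ)^(k+1) * y⌋₊ % M := by
  have hM0 : (M:ℝ) ≠ 0 := by positivity
  have h := Nat.floor_div_natCast ((M:ℝ)^(k+1) * y) M
  have h2 : (M:ℝ)^(k+1) * y / M = (M:ℝ)^k * y := by rw [pow_succ]; field_simp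
  rw [h2] at h
  rw [h]
  exact (Nat.div_add_mod _ _).symm

lemma cel_step {M : ℕ} (hM : 1 ≤ M) {θ : ℝ × ℝ} (hθ : Good θ) (k : ℕ) (x : ℝ) :
    cel M θ (k+1) x = stp M k (cel M θ k x) (edg M θ k x) := by
  cases k with
  | zero =>
    simp only [cel, stp, edg, pow_zero, one_mul]
    rw [Nat.floor_eq_zero.mpr (pos_mem hθ x).2]
  | succ k =>
    simp only [cel, stp, edg]
    rw [← floor_rec hM]

noncomputable def wt (M : ℕ) (q : ℝ) : ℕ → E → ℕ → ℝ≥0∞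
  | 0, _, i => ENNReal.ofReal ((16 * 2^i)^q)
  | k+1, w, i => if i < M then ENNReal.ofReal ((16 * 2^w.1 / M^(k+1))^q) else 0

noncomputable def dec (M : ℕ) (θ : ℝ × ℝ) (D : ℕ → E) : ℝ :=
  2^((D 1).1 + 1) * (4 * (⨆ k, ((D (k+1)).2 : ℝ) / M^k) - 1 - θ.2)

structure Path (M : ℕ) (D : ℕ → E) (j : ℕ → ℕ) : Prop where
  h0 : D 0 = (0,0)
  hs : ∀ k, D (k+1) = stp M k (D k) (j k)
  hj : ∀ k, j (k+1) < M

namespace Path
variable {M : ℕ} {D : ℕ → E} {j : ℕ → ℕ}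

lemma fst (h : Path M D j) (k : ℕ) : (D (k+1)).1 = j 0 := by
  induction k with
  | zero => rw [h.hs]; rfl
  | succ k ih => rw [h.hs]; exact ih

lemma snd_zero (h : Path M D j) : (D 1).2 = 0 := by rw [h.hs]; rfl

lemma snd_succ (h : Path M D j) (k : ℕ) : (D (k+2)).2 = M * (D (k+1)).2 + j (k+1) := by
  rw [h.hs (k+1)]; rfl

lemma mono (h : Path M D j) (hM : 1 ≤ M) : Monotone (fun k => ((D (k+1)).2 : ℝ) / M^k) := by
  apply monotone_nat_of_le_succ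
  intro k
  rw [h.snd_succ]
  have hM0 : (0:ℝ) < M := by exact_mod_cast hM
  rw [div_le_div_iff₀ (by positivity) (by positivity), pow_succ]
  push_cast
  have : (0:ℝ) ≤ j (k+1) := by positivity
  have h2 : (0:ℝ) < (M:ℝ)^k := by positivity
  nlinarith [mul_nonneg this h2.le]

lemma anti (h : Path M D j) (hM : 1 ≤ M) : Antitone (fun k => (((D (k+1)).2 : ℝ) + 1) / M^k) := by
  apply antitone_nat_of_succ_le
  intro k
  rw [h.snd_succ]
  have hM0 : (0:ℝ) < M := by exact_mod_cast hM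
  rw [div_le_div_iff₀ (by positivity) (by positivity), pow_succ]
  push_cast
  have : (j (k+1) : ℝ) + 1 ≤ M := by exact_mod_cast h.hj k
  have h2 : (0:ℝ) < (M:ℝ)^k := by positivity
  nlinarith [mul_nonneg (sub_nonneg.mpr this) h2.le]

lemma le_any (h : Path M D j) (hM : 1 ≤ M) (k l : ℕ) :
    ((D (k+1)).2 : ℝ) / M^k ≤ (((D (l+1)).2 : ℝ) + 1) / M^l := by
  have hM0 : (0:ℝ) < M := by exact_mod_cast hM
  have h1 := h.mono hM (le_max_left k l)
  have h2 := h.anti hM (le_max_right k l)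
  simp only at h1 h2
  refine h1.trans (le_trans ?_ h2)
  gcongr
  linarith

lemma bdd (h : Path M D j) (hM : 1 ≤ M) : BddAbove (range (fun k => ((D (k+1)).2 : ℝ) / M^k)) := by
  refine ⟨(((D (0+1)).2 : ℝ) + 1) / M^0, ?_⟩
  rintro _ ⟨k, rfl⟩
  exact h.le_any hM k 0

lemma le_sup (h : Path M D j) (hM : 1 ≤ M) (k : ℕ) :
    ((D (k+1)).2 : ℝ) / M^k ≤ ⨆ k, ((D (k+1)).2 : ℝ) / M^k := le_ciSup (h.bdd hM) k

lemma sup_le (h : Path M D j) (hM : 1 ≤ M) (l : ℕ) :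
    ⨆ k, ((D (k+1)).2 : ℝ) / M^k ≤ (((D (l+1)).2 : ℝ) + 1) / M^l :=
  ciSup_le fun k => h.le_any hM k l

lemma sup_nonneg (h : Path M D j) (hM : 1 ≤ M) : 0 ≤ ⨆ k, ((D (k+1)).2 : ℝ) / M^k := by
  refine le_trans ?_ (h.le_sup hM 0)
  positivity

lemma sup_le_one (h : Path M D j) (hM : 1 ≤ M) : ⨆ k, ((D (k+1)).2 : ℝ) / M^k ≤ 1 := by
  have := h.sup_le hM 0
  rw [h.snd_zero] at this
  simpa using this

lemma tendsto (h : Path M D j) (hM : 1 ≤ M) :
    Filter.Tendsto (fun k => ((D (k+1)).2 : ℝ) / M^k) Filter.atTop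
      (nhds (⨆ k, ((D (k+1)).2 : ℝ) / M^k)) := tendsto_atTop_ciSup (h.mono hM) (h.bdd hM)

end Path

/-- number of thresholds separating two digits -/
lemma sep_count (M a b : ℕ) (ha : a < M) (hb : b < M) (c : ℝ≥0∞) :
    ∑' i : ℕ, (if i < M then c else 0) * (if ¬ (a < i ↔ b < i) then 1 else 0) =
      ENNReal.ofReal (|(a:ℝ) - b|) * c := by
  wlog hab : a ≤ b generalizing a b
  · have := this b a hb ha (by omega)
    rw [abs_sub_comm, ← this]
    congr 1; funext i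
    congr 2
    simp only [iff_comm]
  have h1 : ∀ i : ℕ, (if i < M then c else 0) * (if ¬ (a < i ↔ b < i) then (1:ℝ≥0∞) else 0) =
      if i ∈ Finset.Ioc a b then c else 0 := by
    intro i
    by_cases hi : i ∈ Finset.Ioc a b
    · rw [if_pos hi]
      rw [Finset.mem_Ioc] at hi
      rw [if_pos (by omega), if_pos (by omega), mul_one]
    · rw [if_neg hi]
      rw [Finset.mem_Ioc] at hi
      rw [if_neg (c := ¬ (a < i ↔ b < i)) (by omega), mul_zero]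
  simp only [h1]
  rw [tsum_eq_sum (s := Finset.Ioc a b) (by intro i hi; rw [if_neg hi])]
  rw [Finset.sum_congr rfl (fun i hi => if_pos hi), Finset.sum_const, Nat.card_Ioc, nsmul_eq_mul]
  congr 1
  have : |(a:ℝ) - b| = ((b - a : ℕ) : ℝ) := by
    rw [abs_sub_comm, Nat.cast_sub hab, abs_of_nonneg]
    have : (a:ℝ) ≤ b := by exact_mod_cast hab
    linarith
  rw [this, ENNReal.ofReal_natCast]

lemma cost_paths {M : ℕ} (hM : 1 ≤ M) {q : ℝ} (hq0 : 0 < q) (hq1 : q ≤ 1) {θ : ℝ × ℝ}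
    (hθ : Good θ) {D D' : ℕ → E} {j j' : ℕ → ℕ} (h : Path M D j) (h' : Path M D' j') :
    dec M θ D = dec M θ D' ∨ ∃ k, D k = D' k ∧
      ENNReal.ofReal (|dec M θ D - dec M θ D'|^q) ≤
        ∑' i, wt M q k (D k) i * (if ¬ (j k < i ↔ j' k < i) then 1 else 0) := by
  classical
  by_cases heq : ∀ k, D k = D' k
  · left
    have : D = D' := funext heq
    rw [this]
  right
  push Not at heq
  obtain ⟨k, hk, hmin⟩ : ∃ k, D (k+1) ≠ D' (k+1) ∧ D k = D' k := by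
    have hne := Nat.find_spec heq
    have hpos : Nat.find heq ≠ 0 := by
      intro h0
      rw [h0, h.h0, h'.h0] at hne
      exact hne rfl
    refine ⟨Nat.find heq - 1, ?_, ?_⟩
    · rw [Nat.sub_add_cancel (by omega)]; exact hne
    · by_contra hc
      exact Nat.find_min heq (by omega) hc
  refine ⟨k, hmin, ?_⟩
  have hjk : j k ≠ j' k := by
    intro hj
    apply hk
    rw [h.hs, h'.hs, hmin, hj]
  have hM0 : (0:ℝ) < M := by exact_mod_cast hM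
  obtain ⟨g1, g2, g3, g4⟩ := hθ
  cases k with
  | zero =>
    have hterm : ENNReal.ofReal ((16 * 2^(max (j 0) (j' 0)))^q) ≤
        ∑' i, wt M q 0 (D 0) i * (if ¬ (j 0 < i ↔ j' 0 < i) then 1 else 0) := by
      refine le_trans ?_ (ENNReal.le_tsum (max (j 0) (j' 0)))
      rw [if_pos (by omega), mul_one]
      rfl
    refine le_trans ?_ hterm
    apply ENNReal.ofReal_le_ofReal
    apply Real.rpow_le_rpow (abs_nonneg _) _ hq0.le
    unfold dec
    rw [h.fst 0, h'.fst 0]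
    have s1 := h.sup_nonneg hM
    have s2 := h.sup_le_one hM
    have s3 := h'.sup_nonneg hM
    have s4 := h'.sup_le_one hM
    set Y := ⨆ k, ((D (k+1)).2 : ℝ) / M^k
    set Y' := ⨆ k, ((D' (k+1)).2 : ℝ) / M^k
    have p1 : (0:ℝ) < 2^(j 0) := by positivity
    have p2 : (0:ℝ) < 2^(j' 0) := by positivity
    have p3 : (2:ℝ)^(j 0) ≤ 2^(max (j 0) (j' 0)) := pow_le_pow_right₀ (by norm_num) (le_max_left _ _)
    have p4 : (2:ℝ)^(j' 0) ≤ 2^(max (j 0) (j' 0)) := pow_le_pow_right₀ (by norm_num) (le_max_right _ _)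
    have b1 : |2^(j 0 + 1) * (4 * Y - 1 - θ.2)| ≤ 6 * 2^(j 0) := by
      rw [abs_mul, abs_of_pos (by positivity : (0:ℝ) < 2^(j 0 + 1)), pow_succ]
      have : |4 * Y - 1 - θ.2| ≤ 3 := by rw [abs_le]; constructor <;> linarith
      nlinarith
    have b2 : |2^(j' 0 + 1) * (4 * Y' - 1 - θ.2)| ≤ 6 * 2^(j' 0) := by
      rw [abs_mul, abs_of_pos (by positivity : (0:ℝ) < 2^(j' 0 + 1)), pow_succ]
      have : |4 * Y' - 1 - θ.2| ≤ 3 := by rw [abs_le]; constructor <;> linarith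
      nlinarith
    have := abs_sub (2^(j 0 + 1) * (4 * Y - 1 - θ.2)) (2^(j' 0 + 1) * (4 * Y' - 1 - θ.2))
    linarith
  | succ l =>
    have hfst : j 0 = j' 0 := by
      rw [← h.fst l, ← h'.fst l, hmin]
    have e1 : ∑' i, wt M q (l+1) (D (l+1)) i * (if ¬ (j (l+1) < i ↔ j' (l+1) < i) then 1 else 0) =
        ENNReal.ofReal (|(j (l+1) : ℝ) - j' (l+1)|) *
          ENNReal.ofReal ((16 * 2^(j 0) / M^(l+1))^q) := by
      rw [← sep_count M _ _ (h.hj l) (h'.hj l)]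
      simp only [wt]
      rw [h.fst l]
    rw [e1, ← ENNReal.ofReal_mul (abs_nonneg _)]
    apply ENNReal.ofReal_le_ofReal
    have hj1 : 1 ≤ |(j (l+1) : ℝ) - j' (l+1)| := by
      rcases lt_or_gt_of_ne hjk with hlt | hlt
      · have : (j (l+1) : ℝ) + 1 ≤ j' (l+1) := by exact_mod_cast hlt
        rw [abs_sub_comm, abs_of_nonneg (by linarith)]; linarith
      · have : (j' (l+1) : ℝ) + 1 ≤ j (l+1) := by exact_mod_cast hlt
        rw [abs_of_nonneg (by linarith)]; linarith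
    have hdec : |dec M θ D - dec M θ D'| ≤
        |(j (l+1) : ℝ) - j' (l+1)| * (16 * 2^(j 0) / M^(l+1)) := by
      unfold dec
      rw [h.fst 0, h'.fst 0, ← hfst]
      have s1 := h.le_sup hM (l+1)
      have s2 := h.sup_le hM (l+1)
      have s3 := h'.le_sup hM (l+1)
      have s4 := h'.sup_le hM (l+1)
      rw [h.snd_succ l] at s1 s2
      rw [h'.snd_succ l] at s3 s4
      rw [← hmin] at s3 s4
      set Y := ⨆ k, ((D (k+1)).2 : ℝ) / M^k
      set Y' := ⨆ k, ((D' (k+1)).2 : ℝ) / M^k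
      set n := (D (l+1)).2
      have hp : (0:ℝ) < (M:ℝ)^(l+1) := by positivity
      rw [div_le_iff₀ hp] at s1 s3
      rw [le_div_iff₀ hp] at s2 s4
      push_cast at s1 s2 s3 s4
      have hYY : |Y - Y'| * M^(l+1) ≤ 2 * |(j (l+1) : ℝ) - j' (l+1)| := by
        have hd : |(j (l+1) : ℝ) - j' (l+1)| + 1 ≤ 2 * |(j (l+1) : ℝ) - j' (l+1)| := by linarith
        refine le_trans ?_ hd
        rw [← abs_of_pos hp, ← abs_mul]
        have t1 := le_abs_self ((j (l+1) : ℝ) - j' (l+1))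
        have t2 := neg_abs_le ((j (l+1) : ℝ) - j' (l+1))
        rw [abs_le]
        constructor <;> nlinarith
      have e2 : 2^(j 0 + 1) * (4 * Y - 1 - θ.2) - 2^(j 0 + 1) * (4 * Y' - 1 - θ.2) =
          8 * 2^(j 0) * (Y - Y') := by rw [pow_succ]; ring
      rw [e2, abs_mul, abs_of_pos (by positivity : (0:ℝ) < 8 * 2^(j 0)), mul_div_assoc', le_div_iff₀ hp]
      have p1 : (0:ℝ) < 2^(j 0) := by positivity
      nlinarith
    calc |dec M θ D - dec M θ D'|^q ≤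
        (|(j (l+1) : ℝ) - j' (l+1)| * (16 * 2^(j 0) / M^(l+1)))^q :=
          Real.rpow_le_rpow (abs_nonneg _) hdec hq0.le
      _ = |(j (l+1) : ℝ) - j' (l+1)|^q * (16 * 2^(j 0) / M^(l+1))^q := by
          rw [Real.mul_rpow (abs_nonneg _) (by positivity)]
      _ ≤ |(j (l+1) : ℝ) - j' (l+1)|^(1:ℝ) * (16 * 2^(j 0) / M^(l+1))^q := by
          gcongr
      _ = _ := by rw [Real.rpow_one]

end Pool.Agent.X101.CR
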