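import Pool.Agent.X101.CR.Cell

open MeasureTheory Set
open scoped ENNReal

namespace Pool.Agent.X101.CR

def sS (M : ℕ) (θ : ℝ × ℝ) (k : ℕ) (w : E) (i : ℕ) (x y : ℝ) : Prop :=
  ¬ ((cel M θ k x = w ∧ edg M θ k x < i) ↔ (cel M θ k y = w ∧ edg M θ k y < i))

def sG (M : ℕ) (θ : ℝ × ℝ) (k : ℕ) (w : E) (x y : ℝ) : Prop :=
  ¬ (cel M θ k x = w ↔ cel M θ k y = w)

open Classical in
noncomputable def TT (M : ℕ) (q : ℝ) (θ : ℝ × ℝ) (k : ℕ) (x y : ℝ) : ℝ≥0∞ :=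
  ∑' w : E, ∑' i : ℕ, wt M q k w i *
    ((if sS M θ k w i x y then 1 else 0) + (if sG M θ k w x y then 1 else 0))

lemma TT_symm (M : ℕ) (q : ℝ) (θ : ℝ × ℝ) (k : ℕ) (x y : ℝ) :
    TT M q θ k x y = TT M q θ k y x := by
  unfold TT
  have h1 : ∀ w i, sS M θ k w i x y ↔ sS M θ k w i y x := fun w i => not_congr iff_comm
  have h2 : ∀ w, sG M θ k w x y ↔ sG M θ k w y x := fun w => not_congr iff_comm
  congr 1; funext w; congr 1; funext i
  rw [show sS M θ k w i x y = sS M θ k w i y x from propext (h1 w i),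
    show sG M θ k w x y = sG M θ k w y x from propext (h2 w)]

lemma meas_sS (M k : ℕ) (w : E) (i : ℕ) :
    MeasurableSet {p : (ℝ × ℝ) × (ℝ × ℝ) | sS M p.1 k w i p.2.1 p.2.2} := by
  have f1 : Measurable (fun p : (ℝ × ℝ) × (ℝ × ℝ) => (p.1, p.2.1)) := by fun_prop
  have f2 : Measurable (fun p : (ℝ × ℝ) × (ℝ × ℝ) => (p.1, p.2.2)) := by fun_prop
  have hs : MeasurableSet {p : (ℝ × ℝ) × ℝ | cel M p.1 k p.2 = w ∧ edg M p.1 k p.2 < i} :=
    ((meas_cel M k) (measurableSet_singleton w)).inter ((meas_edg M k) (measurableSet_Iio (a := i)))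
  have g1 := f1 hs
  have g2 := f2 hs
  have : {p : (ℝ × ℝ) × (ℝ × ℝ) | sS M p.1 k w i p.2.1 p.2.2} =
      (((fun p : (ℝ × ℝ) × (ℝ × ℝ) => (p.1, p.2.1)) ⁻¹'
        {p : (ℝ × ℝ) × ℝ | cel M p.1 k p.2 = w ∧ edg M p.1 k p.2 < i}) \
      ((fun p : (ℝ × ℝ) × (ℝ × ℝ) => (p.1, p.2.2)) ⁻¹'
        {p : (ℝ × ℝ) × ℝ | cel M p.1 k p.2 = w ∧ edg M p.1 k p.2 < i})) ∪
      (((fun p : (ℝ × ℝ) × (ℝ × ℝ) => (p.1, p.2.2)) ⁻¹'
        {p : (ℝ × ℝ) × ℝ | cel M p.1 k p.2 = w ∧ edg M p.1 k p.2 < i}) \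
      ((fun p : (ℝ × ℝ) × (ℝ × ℝ) => (p.1, p.2.1)) ⁻¹'
        {p : (ℝ × ℝ) × ℝ | cel M p.1 k p.2 = w ∧ edg M p.1 k p.2 < i})) := by
    ext p
    simp only [sS, mem_ofPred_eq, mem_union, mem_sdiff, mem_preimage]
    tauto
  rw [this]
  exact (g1.diff g2).union (g2.diff g1)

lemma meas_sG (M k : ℕ) (w : E) :
    MeasurableSet {p : (ℝ × ℝ) × (ℝ × ℝ) | sG M p.1 k w p.2.1 p.2.2} := by
  have f1 : Measurable (fun p : (ℝ × ℝ) × (ℝ × ℝ) => (p.1, p.2.1)) := by fun_prop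
  have f2 : Measurable (fun p : (ℝ × ℝ) × (ℝ × ℝ) => (p.1, p.2.2)) := by fun_prop
  have hs : MeasurableSet {p : (ℝ × ℝ) × ℝ | cel M p.1 k p.2 = w} :=
    ((meas_cel M k) (measurableSet_singleton w))
  have g1 := f1 hs
  have g2 := f2 hs
  have : {p : (ℝ × ℝ) × (ℝ × ℝ) | sG M p.1 k w p.2.1 p.2.2} =
      (((fun p : (ℝ × ℝ) × (ℝ × ℝ) => (p.1, p.2.1)) ⁻¹'
        {p : (ℝ × ℝ) × ℝ | cel M p.1 k p.2 = w}) \
      ((fun p : (ℝ × ℝ) × (ℝ × ℝ) => (p.1, p.2.2)) ⁻¹'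
        {p : (ℝ × ℝ) × ℝ | cel M p.1 k p.2 = w})) ∪
      (((fun p : (ℝ × ℝ) × (ℝ × ℝ) => (p.1, p.2.2)) ⁻¹'
        {p : (ℝ × ℝ) × ℝ | cel M p.1 k p.2 = w}) \
      ((fun p : (ℝ × ℝ) × (ℝ × ℝ) => (p.1, p.2.1)) ⁻¹'
        {p : (ℝ × ℝ) × ℝ | cel M p.1 k p.2 = w})) := by
    ext p
    simp only [sG, mem_ofPred_eq, mem_union, mem_sdiff, mem_preimage]
    tauto
  rw [this]
  exact (g1.diff g2).union (g2.diff g1)

lemma meas_TT (M : ℕ) (q : ℝ) (k : ℕ) :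
    Measurable (fun p : (ℝ × ℝ) × (ℝ × ℝ) => TT M q p.1 k p.2.1 p.2.2) := by
  classical
  unfold TT
  refine Measurable.tsum fun w => Measurable.tsum fun i => ?_
  refine Measurable.const_mul (Measurable.add ?_ ?_) _
  · exact Measurable.ite (meas_sS M k w i) measurable_const measurable_const
  · exact Measurable.ite (meas_sG M k w) measurable_const measurable_const

lemma TT_eq {M : ℕ} {q : ℝ} {θ : ℝ × ℝ} {k : ℕ} {x y : ℝ} (h : cel M θ k x = cel M θ k y) :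
    TT M q θ k x y = ∑' i, wt M q k (cel M θ k x) i *
      (if ¬ (edg M θ k x < i ↔ edg M θ k y < i) then 1 else 0) := by
  classical
  unfold TT
  rw [tsum_eq_single (cel M θ k x)]
  · congr 1; funext i
    have h1 : sS M θ k (cel M θ k x) i x y ↔ ¬ (edg M θ k x < i ↔ edg M θ k y < i) := by
      unfold sS; rw [← h]; simp
    have h2 : ¬ sG M θ k (cel M θ k x) x y := by
      unfold sG; rw [← h]; simp
    rw [if_neg h2, add_zero]
    simp only [h1]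
  · intro w hw
    have h1 : ∀ i, ¬ sS M θ k w i x y := by
      intro i; unfold sS; rw [← h]; simp [Ne.symm hw]
    have h2 : ¬ sG M θ k w x y := by
      unfold sG; rw [← h]; simp
    simp [h1, h2]

lemma TT_le (M : ℕ) (q : ℝ) (θ : ℝ × ℝ) (k : ℕ) (x y : ℝ) :
    TT M q θ k x y ≤ 2 * (∑' i, wt M q k (cel M θ k x) i) + 2 * (∑' i, wt M q k (cel M θ k y) i) := by
  classical
  unfold TT
  have hstep : ∀ w : E, ∑' i : ℕ, wt M q k w i *
    ((if sS M θ k w i x y then 1 else 0) + (if sG M θ k w x y then 1 else 0)) ≤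
    (if w = cel M θ k x then 2 * (∑' i, wt M q k w i) else 0) +
    (if w = cel M θ k y then 2 * (∑' i, wt M q k w i) else 0) := by
    intro w
    by_cases h1 : w = cel M θ k x ∨ w = cel M θ k y
    · have hle : ∑' i : ℕ, wt M q k w i *
        ((if sS M θ k w i x y then 1 else 0) + (if sG M θ k w x y then 1 else 0)) ≤
        2 * (∑' i, wt M q k w i) := by
        rw [← ENNReal.tsum_mul_left]
        apply ENNReal.tsum_le_tsum
        intro i
        rw [mul_comm]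
        gcongr
        split_ifs <;> norm_num
      rcases h1 with h1 | h1
      · rw [if_pos h1]; exact hle.trans le_self_add
      · rw [if_pos (c := w = cel M θ k y) h1]; exact hle.trans le_add_self
    · push Not at h1
      have g1 : ∀ i, ¬ sS M θ k w i x y := by
        intro i; unfold sS; simp [Ne.symm h1.1, Ne.symm h1.2]
      have g2 : ¬ sG M θ k w x y := by
        unfold sG; simp [Ne.symm h1.1, Ne.symm h1.2]
      simp [g1, g2]
  refine (ENNReal.tsum_le_tsum hstep).trans ?_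
  rw [ENNReal.tsum_add]
  gcongr
  · rw [tsum_ite_eq]
  · rw [tsum_ite_eq]

lemma wt_sum (M : ℕ) (q : ℝ) (k : ℕ) (w : E) :
    ∑' i, wt M q (k+1) w i = M * ENNReal.ofReal ((16 * 2^w.1 / M^(k+1))^q) := by
  simp only [wt]
  rw [tsum_eq_sum (s := Finset.range M) (by
    intro i hi; rw [if_neg (by simpa using hi)])]
  rw [Finset.sum_congr rfl (fun i hi => if_pos (Finset.mem_range.mp hi)), Finset.sum_const,
    Finset.card_range, nsmul_eq_mul]

/-- top-level cost -/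
noncomputable def T0 (q ρ x y : ℝ) : ℝ≥0∞ :=
  ∑' i : ℕ, ENNReal.ofReal ((16 * 2^i)^q) * (if ¬ (ann ρ x < i ↔ ann ρ y < i) then 1 else 0)

lemma TT_zero (M : ℕ) (q : ℝ) (θ : ℝ × ℝ) (x y : ℝ) : TT M q θ 0 x y = T0 q θ.1 x y := by
  rw [TT_eq (x := x) (y := y) (show cel M θ 0 x = cel M θ 0 y from rfl)]; rfl

lemma scale_eq {M : ℕ} (hM : 1 ≤ M) {q : ℝ} (c : ℝ) (hc : 0 ≤ c) (k : ℕ) :
    (c / M^(k+1))^q = c^q * ((M:ℝ)^q)⁻¹^(k+1) := by
  have hM0 : (0:ℝ) < M := by exact_mod_cast hM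
  rw [Real.div_rpow hc (by positivity), inv_pow, div_eq_mul_inv]
  congr 2
  rw [← Real.rpow_natCast, ← Real.rpow_natCast, ← Real.rpow_mul hM0.le, ← Real.rpow_mul hM0.le,
    mul_comm]

lemma F_ne {M : ℕ} (hM : 1 ≤ M) {q : ℝ} (hq0 : 0 < q) (h1 : (M:ℝ)^(1-q) ≤ 4) (h2 : 2 ≤ (M:ℝ)^q)
    {θ : ℝ × ℝ} {x y : ℝ} (hne : ann θ.1 x ≠ ann θ.1 y) :
    ∑' k, TT M q θ k x y ≤ 33 * T0 q θ.1 x y := by
  have hM0 : (0:ℝ) < M := by exact_mod_cast hM
  set a : ℝ := ((M:ℝ)^q)⁻¹ with ha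
  have ha0 : 0 < a := by positivity
  have ha2 : a ≤ 1/2 := by
    rw [ha, inv_le_comm₀ (by linarith) (by norm_num)]; linarith
  have hMa : (M:ℝ) * a ≤ 4 := by
    have : (M:ℝ) * a = (M:ℝ)^(1-q) := by
      rw [Real.rpow_sub hM0, Real.rpow_one, ha]; rfl
    rw [this]; exact h1
  set mx := max (ann θ.1 x) (ann θ.1 y) with hmx
  set C : ℝ := (16 * 2^mx)^q with hC
  have hC0 : 0 ≤ C := by positivity
  have hCT : ENNReal.ofReal C ≤ T0 q θ.1 x y := by
    unfold T0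
    refine le_trans ?_ (ENNReal.le_tsum mx)
    rw [if_pos (by omega), mul_one]
  have hk : ∀ k, TT M q θ (k+1) x y ≤ ENNReal.ofReal (16 * C * a^k) := by
    intro k
    refine (TT_le M q θ (k+1) x y).trans ?_
    rw [wt_sum, wt_sum]
    have e1 : ∀ z : ℝ, ann θ.1 z ≤ mx →
        (M:ℝ≥0∞) * ENNReal.ofReal ((16 * 2^(cel M θ (k+1) z).1 / M^(k+1))^q) ≤
        ENNReal.ofReal (4 * C * a^k) := by
      intro z hz
      rw [← ENNReal.ofReal_natCast, ← ENNReal.ofReal_mul (by positivity)]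
      apply ENNReal.ofReal_le_ofReal
      have e2 : (16 * 2^(cel M θ (k+1) z).1 : ℝ)^q ≤ C := by
        apply Real.rpow_le_rpow (by positivity) _ hq0.le
        have : (2:ℝ)^(cel M θ (k+1) z).1 ≤ 2^mx := pow_le_pow_right₀ (by norm_num) hz
        linarith
      rw [scale_eq hM (16 * 2^(cel M θ (k+1) z).1) (by positivity), ← ha, pow_succ a k]
      calc (M:ℝ) * ((16 * 2^(cel M θ (k+1) z).1)^q * (a^k * a)) ≤ (M:ℝ) * (C * (a^k * a)) := by
            gcongr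
        _ = (M * a) * (C * a^k) := by ring
        _ ≤ 4 * (C * a^k) := by gcongr
        _ = _ := by ring
    have f1 := e1 x (le_max_left _ _)
    have f2 := e1 y (le_max_right _ _)
    calc _ ≤ 2 * ENNReal.ofReal (4 * C * a^k) + 2 * ENNReal.ofReal (4 * C * a^k) := by gcongr
      _ = ENNReal.ofReal (16 * C * a^k) := by
        rw [show (2:ℝ≥0∞) = ENNReal.ofReal 2 by simp, ← ENNReal.ofReal_mul (by norm_num),
          ← ENNReal.ofReal_add (by positivity) (by positivity)]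
        congr 1; ring
  have hsum : ∑' k, TT M q θ (k+1) x y ≤ 32 * ENNReal.ofReal C := by
    refine (ENNReal.tsum_le_tsum hk).trans ?_
    have hg : HasSum (fun k : ℕ => 16 * C * a^k) (16 * C * (1-a)⁻¹) :=
      (hasSum_geometric_of_lt_one ha0.le (by linarith)).mul_left _
    rw [← ENNReal.ofReal_tsum_of_nonneg (fun k => by positivity) hg.summable, hg.tsum_eq]
    rw [show (32:ℝ≥0∞) = ENNReal.ofReal 32 by simp, ← ENNReal.ofReal_mul (by norm_num)]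
    apply ENNReal.ofReal_le_ofReal
    have : (1-a)⁻¹ ≤ 2 := by
      rw [inv_le_comm₀ (by linarith) (by norm_num)]; linarith
    nlinarith
  rw [tsum_eq_zero_add' ENNReal.summable, TT_zero]
  calc T0 q θ.1 x y + ∑' k, TT M q θ (k+1) x y ≤ T0 q θ.1 x y + 32 * ENNReal.ofReal C := by gcongr
    _ ≤ T0 q θ.1 x y + 32 * T0 q θ.1 x y := by gcongr
    _ = _ := by ring

end Pool.Agent.X101.CR
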