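import Pool.Agent.X101.CR.Exp

open MeasureTheory Set
open scoped ENNReal

namespace Pool.Agent.X101.CR

/-- integral of the deeper levels when both points are in the same annulus, `x ≤ y`. -/
lemma level_le {M M' : ℕ} (hMM : M = 4 * M') (hM' : 1 ≤ M') {q : ℝ} {ρ : ℝ} (hρ : 1 ≤ ρ) (hρ2 : ρ < 2)
    {x y : ℝ} (hxy : x ≤ y) {m : ℕ} (hx : ann ρ x = m) (hy : ann ρ y = m) (k : ℕ) :
    ∫⁻ s in Ico (0:ℝ) 1, TT M q (ρ, s) (k+1) x y ≤
      ENNReal.ofReal ((16 * 2^m / M^(k+1))^q * (5 * M * min 1 (M^k * ((y - x) / (8 * 2^m))))) := by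
  have hM : 1 ≤ M := by omega
  have hM0 : (0:ℝ) < M := by exact_mod_cast hM
  set h : ℝ := (y - x) / (8 * 2^m) with hh
  have h0 : 0 ≤ h := by
    rw [hh]; apply div_nonneg (by linarith); positivity
  set c : ℝ := (16 * 2^m / M^(k+1))^q with hc
  have hc0 : 0 ≤ c := by positivity
  set a0 : ℝ := (x / 2^(m+1) + 1) / 4 with ha0
  set b0 : ℝ := (y / 2^(m+1) + 1) / 4 with hb0
  have hba : b0 - a0 = h := by
    rw [ha0, hb0, hh, pow_succ]
    have : (2:ℝ)^m ≠ 0 := by positivity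
    field_simp
    ring
  have hpx : ∀ s, pos (ρ, s) x = a0 + s/4 := by
    intro s; unfold pos; simp only [hx]; rw [ha0]; ring
  have hpy : ∀ s, pos (ρ, s) y = b0 + s/4 := by
    intro s; unfold pos; simp only [hy]; rw [hb0]; ring
  have ha0n : 0 ≤ a0 := by
    have := (pos_mem (θ := (ρ, 0)) ⟨hρ, hρ2, le_refl _, by norm_num⟩ x).1
    rw [hpx] at this; simpa using this
  -- shift integral at level l+1
  have hshift : ∀ l : ℕ, ∫⁻ s in Ico (0:ℝ) 1, ENNReal.ofReal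
      ((⌊(M:ℝ)^(l+1) * pos (ρ, s) y⌋₊ : ℝ) - ⌊(M:ℝ)^(l+1) * pos (ρ, s) x⌋₊) =
      ENNReal.ofReal ((M:ℝ)^(l+1) * h) := by
    intro l
    have hN : 0 < M' * M^l := by positivity
    have := shift_int (M' * M^l) hN ((M:ℝ)^(l+1) * a0) ((M:ℝ)^(l+1) * b0) (by positivity)
      (by have : a0 ≤ b0 := by linarith
          gcongr)
    rw [show (M:ℝ)^(l+1) * b0 - (M:ℝ)^(l+1) * a0 = (M:ℝ)^(l+1) * h by rw [← hba]; ring] at this
    rw [← this]
    congr 1; funext s
    have e : ∀ z : ℝ, (M:ℝ)^(l+1) * (z + s/4) = (M:ℝ)^(l+1) * z + ((M' * M^l : ℕ) : ℝ) * s := by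
      intro z
      rw [pow_succ]
      have : (M:ℝ) = 4 * M' := by rw [hMM]; push_cast; ring
      push_cast
      nth_rewrite 2 [this]
      nth_rewrite 3 [this]
      ring
    rw [hpx, hpy, e, e]
  set n : ℕ → ℝ → ℝ → ℕ := fun l s z => ⌊(M:ℝ)^l * pos (ρ, s) z⌋₊ with hn
  have hmono : ∀ l s, n l s x ≤ n l s y := by
    intro l s
    apply Nat.floor_le_floor
    rw [hpx, hpy]
    have : a0 ≤ b0 := by linarith
    gcongr
  -- pointwise bound
  let G : ℝ → ℝ≥0∞ := fun s => if k = 0 then 0 else min 1 (ENNReal.ofReal ((n k s y : ℝ) - n k s x))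
  have hpt : ∀ s ∈ Ico (0:ℝ) 1, TT M q (ρ, s) (k+1) x y ≤
      ENNReal.ofReal c * ((if (M:ℝ)^k * h < 1 then 1 else 0) *
        ENNReal.ofReal ((n (k+1) s y : ℝ) - n (k+1) s x) + 4 * M * G s) := by
    intro s hs
    have hgood : Good (ρ, s) := ⟨hρ, hρ2, hs.1, hs.2⟩
    have hlx : ∀ l, ((n (l+1) s x : ℕ)) = M * n l s x + edg M (ρ, s) (l+1) x := fun l =>
      floor_rec hM l _
    have hly : ∀ l, ((n (l+1) s y : ℕ)) = M * n l s y + edg M (ρ, s) (l+1) y := fun l =>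
      floor_rec hM l _
    have hw1 : ∀ z, ann ρ z = m → (cel M (ρ, s) (k+1) z).1 = m := fun z hz => hz
    by_cases hcase : n k s x = n k s y
    · have hcel : cel M (ρ, s) (k+1) x = cel M (ρ, s) (k+1) y := by
        simp only [cel, hx, hy]
        exact congrArg (Prod.mk m) hcase
      rw [TT_eq hcel]
      have e1 := sep_count M (edg M (ρ, s) (k+1) x) (edg M (ρ, s) (k+1) y)
        (Nat.mod_lt _ hM) (Nat.mod_lt _ hM) (ENNReal.ofReal c)
      have e2 : ∑' i, wt M q (k+1) (cel M (ρ, s) (k+1) x) i *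
          (if ¬ (edg M (ρ, s) (k+1) x < i ↔ edg M (ρ, s) (k+1) y < i) then 1 else 0) =
          ENNReal.ofReal (|(edg M (ρ, s) (k+1) x : ℝ) - edg M (ρ, s) (k+1) y|) *
            ENNReal.ofReal c := by
        rw [← e1]
        simp only [wt]
        rw [hw1 x hx]
      rw [e2]
      have e3 : |(edg M (ρ, s) (k+1) x : ℝ) - edg M (ρ, s) (k+1) y| =
          (n (k+1) s y : ℝ) - n (k+1) s x := by
        have t1 : (n (k+1) s x : ℝ) = M * n k s x + edg M (ρ, s) (k+1) x := by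
          exact_mod_cast hlx k
        have t2 : (n (k+1) s y : ℝ) = M * n k s y + edg M (ρ, s) (k+1) y := by
          exact_mod_cast hly k
        have t3 : (n (k+1) s x : ℝ) ≤ n (k+1) s y := by exact_mod_cast hmono (k+1) s
        rw [hcase] at t1
        rw [abs_sub_comm, abs_of_nonneg (by linarith)]
        linarith
      rw [e3]
      have e4 : (M:ℝ)^k * h < 1 := by
        have p1 := Nat.floor_le (a := (M:ℝ)^k * pos (ρ, s) x)
          (mul_nonneg (by positivity) (pos_mem hgood x).1)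
        have p2 := Nat.lt_floor_add_one ((M:ℝ)^k * pos (ρ, s) y)
        have p3' : ⌊(M:ℝ)^k * pos (ρ, s) y⌋₊ = ⌊(M:ℝ)^k * pos (ρ, s) x⌋₊ := hcase.symm
        have p3 : (⌊(M:ℝ)^k * pos (ρ, s) y⌋₊ : ℝ) = ⌊(M:ℝ)^k * pos (ρ, s) x⌋₊ := by
          rw [p3']
        rw [p3, hpy] at p2
        rw [hpx] at p1 p2
        rw [← hba]
        nlinarith
      rw [if_pos e4, one_mul, mul_comm]
      gcongr
      exact le_self_add
    · have hk0 : k ≠ 0 := by
        intro hk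
        apply hcase
        subst hk
        simp only [hn, pow_zero, one_mul]
        rw [Nat.floor_eq_zero.mpr (pos_mem hgood x).2, Nat.floor_eq_zero.mpr (pos_mem hgood y).2]
      have hG : G s = 1 := by
        simp only [G, if_neg hk0]
        rw [min_eq_left]
        have : n k s x + 1 ≤ n k s y := lt_of_le_of_ne (hmono k s) hcase
        have : (n k s x : ℝ) + 1 ≤ n k s y := by exact_mod_cast this
        rw [← ENNReal.ofReal_one]
        apply ENNReal.ofReal_le_ofReal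
        linarith
      rw [hG]
      refine (TT_le M q (ρ, s) (k+1) x y).trans ?_
      rw [wt_sum, wt_sum, hw1 x hx, hw1 y hy]
      calc 2 * ((M:ℝ≥0∞) * ENNReal.ofReal c) + 2 * ((M:ℝ≥0∞) * ENNReal.ofReal c) =
          ENNReal.ofReal c * (4 * M * 1) := by ring
        _ ≤ _ := by gcongr; exact le_add_self
  have hmp : ∀ z, Measurable (fun s => pos (ρ, s) z) := by
    intro z
    exact meas_pos.comp (by fun_prop : Measurable (fun s : ℝ => (((ρ, s) : ℝ × ℝ), z)))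
  have hmn : ∀ l z, Measurable (fun s => (n l s z : ℝ)) := by
    intro l z
    exact (measurable_of_countable (fun n : ℕ => (n:ℝ))).comp
      (Nat.measurable_floor.comp (measurable_const.mul (hmp z)))
  have hmd : ∀ l, Measurable (fun s => ENNReal.ofReal ((n l s y : ℝ) - n l s x)) := fun l =>
    ((hmn l y).sub (hmn l x)).ennreal_ofReal
  have hmG : Measurable G := by
    by_cases hk : k = 0
    · simp only [G, if_pos hk]; exact measurable_const
    · simp only [G, if_neg hk]; exact measurable_const.min (hmd k)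
  have hGint : ∫⁻ s in Ico (0:ℝ) 1, G s ≤ ENNReal.ofReal (min 1 ((M:ℝ)^k * h)) := by
    by_cases hk : k = 0
    · simp only [G, if_pos hk]; simp
    · obtain ⟨l, rfl⟩ : ∃ l, k = l + 1 := ⟨k - 1, by omega⟩
      simp only [G, if_neg hk]
      rw [ENNReal.ofReal_min, ENNReal.ofReal_one]
      apply le_min
      · calc _ ≤ ∫⁻ s in Ico (0:ℝ) 1, (1:ℝ≥0∞) := lintegral_mono fun s => min_le_left _ _
          _ = 1 := by simp
      · rw [← hshift l]
        exact lintegral_mono fun s => min_le_right _ _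
  calc ∫⁻ s in Ico (0:ℝ) 1, TT M q (ρ, s) (k+1) x y ≤
      ∫⁻ s in Ico (0:ℝ) 1, ENNReal.ofReal c * ((if (M:ℝ)^k * h < 1 then 1 else 0) *
        ENNReal.ofReal ((n (k+1) s y : ℝ) - n (k+1) s x) + 4 * M * G s) :=
        setLIntegral_mono' measurableSet_Ico hpt
    _ = ENNReal.ofReal c * ((if (M:ℝ)^k * h < 1 then 1 else 0) * ENNReal.ofReal ((M:ℝ)^(k+1) * h) +
        4 * M * ∫⁻ s in Ico (0:ℝ) 1, G s) := by
        have m1 : Measurable (fun s => (if (M:ℝ)^k * h < 1 then (1:ℝ≥0∞) else 0) *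
          ENNReal.ofReal ((n (k+1) s y : ℝ) - n (k+1) s x)) := (hmd (k+1)).const_mul _
        have m2 : Measurable (fun s => 4 * (M:ℝ≥0∞) * G s) := hmG.const_mul _
        have m3 : Measurable (fun s => (if (M:ℝ)^k * h < 1 then (1:ℝ≥0∞) else 0) *
          ENNReal.ofReal ((n (k+1) s y : ℝ) - n (k+1) s x) + 4 * (M:ℝ≥0∞) * G s) := m1.add m2
        rw [lintegral_const_mul _ m3, lintegral_add_left m1, lintegral_const_mul _ (hmd (k+1)),
          lintegral_const_mul _ hmG]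
        have := hshift k
        rw [this]
    _ ≤ ENNReal.ofReal c * (ENNReal.ofReal (M * min 1 ((M:ℝ)^k * h)) +
        4 * M * ENNReal.ofReal (min 1 ((M:ℝ)^k * h))) := by
        gcongr
        split_ifs with hlt
        · rw [one_mul, min_eq_right hlt.le]
          apply ENNReal.ofReal_le_ofReal
          rw [pow_succ]
          apply le_of_eq; ring
        · rw [zero_mul]; exact bot_le
    _ = _ := by
        have hmin : 0 ≤ min 1 ((M:ℝ)^k * h) := by positivity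
        rw [show (4:ℝ≥0∞) * M = ENNReal.ofReal (4 * M) by
          rw [ENNReal.ofReal_mul (by norm_num)]; simp]
        rw [← ENNReal.ofReal_mul (by positivity), ← ENNReal.ofReal_add (by positivity) (by positivity),
          ← ENNReal.ofReal_mul hc0]
        congr 1
        ring

lemma F_eq_aux {M M' : ℕ} (hMM : M = 4 * M') (hM' : 1 ≤ M') {q : ℝ} (hq : 1/2 ≤ q) (hq1 : q < 1)
    (h1 : (M:ℝ)^(1-q) ≤ 4) (h1' : 2 ≤ (M:ℝ)^(1-q)) (h2 : 2 ≤ (M:ℝ)^q)
    {ρ : ℝ} (hρ : 1 ≤ ρ) (hρ2 : ρ < 2)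
    {x y : ℝ} (hxy : x ≤ y) (hxy2 : ann ρ x = ann ρ y) :
    ∑' k, ∫⁻ s in Ico (0:ℝ) 1, TT M q (ρ, s) (k+1) x y ≤ ENNReal.ofReal (160 * (y - x)^q) := by
  have hM : 1 ≤ M := by omega
  have hM0 : (0:ℝ) < M := by exact_mod_cast hM
  have hM1 : (1:ℝ) ≤ M := by exact_mod_cast hM
  set m := ann ρ x with hm
  set h : ℝ := (y - x) / (8 * 2^m) with hh
  have h0 : 0 ≤ h := by
    rw [hh]; apply div_nonneg (by linarith); positivity
  have hstep : ∀ k, ∫⁻ s in Ico (0:ℝ) 1, TT M q (ρ, s) (k+1) x y ≤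
      ENNReal.ofReal (20 * (16 * 2^m)^q) * ENNReal.ofReal (phi M q h k) := by
    intro k
    refine (level_le (m := m) hMM hM' hρ hρ2 hxy rfl hxy2.symm k).trans ?_
    rw [← ENNReal.ofReal_mul (by positivity)]
    apply ENNReal.ofReal_le_ofReal
    rw [scale_eq hM _ (by positivity), ← hh, pow_succ]
    unfold phi
    have e1 : (M:ℝ) * ((M:ℝ)^q)⁻¹ ≤ 4 := by
      have : (M:ℝ) * ((M:ℝ)^q)⁻¹ = (M:ℝ)^(1-q) := by
        rw [Real.rpow_sub hM0, Real.rpow_one]; rfl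
      rw [this]; exact h1
    have hmin : 0 ≤ min 1 ((M:ℝ)^k * h) := by positivity
    calc (16 * 2^m)^q * (((M:ℝ)^q)⁻¹^k * ((M:ℝ)^q)⁻¹) * (5 * M * min 1 ((M:ℝ)^k * h)) =
        ((M:ℝ) * ((M:ℝ)^q)⁻¹) * (5 * (16 * 2^m)^q * (((M:ℝ)^q)⁻¹^k * min 1 ((M:ℝ)^k * h))) := by ring
      _ ≤ 4 * (5 * (16 * 2^m)^q * (((M:ℝ)^q)⁻¹^k * min 1 ((M:ℝ)^k * h))) := by gcongr
      _ = _ := by ring
  refine (ENNReal.tsum_le_tsum hstep).trans ?_
  rw [ENNReal.tsum_mul_left]
  have := phi_tsum hM1 h1' h2 (by linarith) hq1.le h h0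
  calc _ ≤ ENNReal.ofReal (20 * (16 * 2^m)^q) * ENNReal.ofReal (4 * h^q) := by gcongr
    _ = ENNReal.ofReal (20 * (16 * 2^m)^q * (4 * h^q)) := (ENNReal.ofReal_mul (by positivity)).symm
    _ ≤ _ := by
      apply ENNReal.ofReal_le_ofReal
      have e2 : (16 * 2^m : ℝ)^q * h^q = 2^q * (y-x)^q := by
        rw [← Real.mul_rpow (by positivity) h0, ← Real.mul_rpow (by norm_num) (by linarith), hh]
        congr 1
        have : (2:ℝ)^m ≠ 0 := by positivity
        field_simp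
        ring
      have e3 : (2:ℝ)^q ≤ 2 := by
        calc (2:ℝ)^q ≤ 2^(1:ℝ) := Real.rpow_le_rpow_of_exponent_le (by norm_num) hq1.le
          _ = 2 := by norm_num
      have e4 : 0 ≤ (y-x)^q := Real.rpow_nonneg (by linarith) _
      calc 20 * (16 * 2^m)^q * (4 * h^q) = 80 * ((16 * 2^m)^q * h^q) := by ring
        _ = 80 * (2^q * (y-x)^q) := by rw [e2]
        _ ≤ 80 * (2 * (y-x)^q) := by gcongr
        _ = _ := by ring

lemma F_eq {M M' : ℕ} (hMM : M = 4 * M') (hM' : 1 ≤ M') {q : ℝ} (hq : 1/2 ≤ q) (hq1 : q < 1)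
    (h1 : (M:ℝ)^(1-q) ≤ 4) (h1' : 2 ≤ (M:ℝ)^(1-q)) (h2 : 2 ≤ (M:ℝ)^q)
    {ρ : ℝ} (hρ : 1 ≤ ρ) (hρ2 : ρ < 2)
    {x y : ℝ} (hxy2 : ann ρ x = ann ρ y) :
    ∑' k, ∫⁻ s in Ico (0:ℝ) 1, TT M q (ρ, s) (k+1) x y ≤ ENNReal.ofReal (160 * |x - y|^q) := by
  rcases le_total x y with hxy | hxy
  · have := F_eq_aux hMM hM' hq hq1 h1 h1' h2 hρ hρ2 hxy hxy2
    rw [abs_sub_comm, abs_of_nonneg (by linarith)]; exact this
  · have := F_eq_aux hMM hM' hq hq1 h1 h1' h2 hρ hρ2 hxy hxy2.symm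
    rw [abs_of_nonneg (by linarith)]
    simp only [TT_symm M q _ _ x y]
    exact this

lemma meas_TTs (M : ℕ) (q ρ : ℝ) (k : ℕ) (x y : ℝ) : Measurable (fun s => TT M q (ρ, s) k x y) :=
  (meas_TT M q k).comp
    (by fun_prop : Measurable (fun s : ℝ => (((ρ, s) : ℝ × ℝ), ((x, y) : ℝ × ℝ))))

lemma int_s {M M' : ℕ} (hMM : M = 4 * M') (hM' : 1 ≤ M') {q : ℝ} (hq : 1/2 ≤ q) (hq1 : q < 1)
    (h1 : (M:ℝ)^(1-q) ≤ 4) (h1' : 2 ≤ (M:ℝ)^(1-q)) (h2 : 2 ≤ (M:ℝ)^q)
    {ρ : ℝ} (hρ : 1 ≤ ρ) (hρ2 : ρ < 2) (x y : ℝ) :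
    ∫⁻ s in Ico (0:ℝ) 1, ∑' k, TT M q (ρ, s) k x y ≤
      ENNReal.ofReal (160 * |x - y|^q) + 33 * T0 q ρ x y := by
  have hM : 1 ≤ M := by omega
  by_cases hann : ann ρ x = ann ρ y
  · have e1 : ∀ s, ∑' k, TT M q (ρ, s) k x y = T0 q ρ x y + ∑' k, TT M q (ρ, s) (k+1) x y := by
      intro s
      rw [tsum_eq_zero_add' ENNReal.summable, TT_zero]
    simp only [e1]
    rw [lintegral_add_left measurable_const,
      lintegral_tsum (fun k => (meas_TTs M q ρ (k+1) x y).aemeasurable)]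
    have := F_eq hMM hM' hq hq1 h1 h1' h2 hρ hρ2 hann
    rw [add_comm]
    gcongr
    simp
    calc T0 q ρ x y = 1 * T0 q ρ x y := (one_mul _).symm
      _ ≤ 33 * T0 q ρ x y := by gcongr; norm_num
  · calc _ ≤ ∫⁻ s in Ico (0:ℝ) 1, 33 * T0 q ρ x y := by
          apply lintegral_mono
          intro s
          exact F_ne hM (by linarith) h1 h2 hann
      _ = 33 * T0 q ρ x y := by simp
      _ ≤ _ := le_add_self

lemma meas_ann' (x : ℝ) : Measurable (fun ρ => ann ρ x) :=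
  meas_ann.comp (by fun_prop : Measurable (fun ρ : ℝ => (((ρ, 0) : ℝ × ℝ), x)))

lemma T0_symm (q ρ x y : ℝ) : T0 q ρ x y = T0 q ρ y x := by
  unfold T0
  congr 1; funext i
  congr 1
  simp only [iff_comm]

lemma meas_ne (x y : ℝ) (i : ℕ) : MeasurableSet {ρ | ¬ (ann ρ x < i ↔ ann ρ y < i)} := by
  have m1 : MeasurableSet {ρ | ann ρ x < i} := (meas_ann' x) (measurableSet_Iio (a := i))
  have m2 : MeasurableSet {ρ | ann ρ y < i} := (meas_ann' y) (measurableSet_Iio (a := i))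
  have : {ρ | ¬ (ann ρ x < i ↔ ann ρ y < i)} = ({ρ | ann ρ x < i} \ {ρ | ann ρ y < i}) ∪
      ({ρ | ann ρ y < i} \ {ρ | ann ρ x < i}) := by
    ext ρ; simp only [mem_ofPred_eq, mem_union, mem_sdiff]; tauto
  rw [this]
  exact (m1.diff m2).union (m2.diff m1)

lemma int_T0_aux {q : ℝ} (hq : 1/2 ≤ q) (hq1 : q < 1) (x y : ℝ) (hxy : |x| ≤ |y|) :
    ∫⁻ ρ in Ico (1:ℝ) 2, T0 q ρ x y ≤ ENNReal.ofReal (512 * |x - y|^q) := by
  unfold T0
  rw [lintegral_tsum]
  swap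
  · intro i
    exact (Measurable.const_mul
      (Measurable.ite (meas_ne x y i) measurable_const measurable_const) _).aemeasurable
  rw [tsum_eq_zero_add' ENNReal.summable]
  simp only [Nat.not_lt_zero, iff_self, not_true, if_false, mul_zero, lintegral_const, zero_mul,
    zero_add]
  have hterm : ∀ j : ℕ, ∫⁻ ρ in Ico (1:ℝ) 2, ENNReal.ofReal ((16 * 2^(j+1))^q) *
      (if ¬ (ann ρ x < j+1 ↔ ann ρ y < j+1) then 1 else 0) ≤
      32 * (ENNReal.ofReal (((2:ℝ)^q)^j) *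
        volume ({ρ : ℝ | |x| < 2^j * ρ ∧ ¬ |y| < 2^j * ρ} ∩ Ico 1 2)) := by
    intro j
    have e1 : ∀ ρ ∈ Ico (1:ℝ) 2, ENNReal.ofReal ((16 * 2^(j+1))^q) *
      (if ¬ (ann ρ x < j+1 ↔ ann ρ y < j+1) then (1:ℝ≥0∞) else 0) =
      indicator {ρ : ℝ | |x| < 2^j * ρ ∧ ¬ |y| < 2^j * ρ}
        (fun _ => ENNReal.ofReal ((16 * 2^(j+1))^q)) ρ := by
      intro ρ hρ
      have hx1 := ann_lt_iff hρ.1 x j
      have hy1 := ann_lt_iff hρ.1 y j
      by_cases hc : |x| < 2^j * ρ ∧ ¬ |y| < 2^j * ρ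
      · rw [if_pos (by rw [hx1, hy1]; tauto), indicator_of_mem (by exact hc), mul_one]
      · rw [if_neg, indicator_of_notMem (by exact hc), mul_zero]
        intro h
        apply h
        rw [hx1, hy1]
        constructor
        · intro h3; by_contra h4; exact hc ⟨h3, h4⟩
        · intro h3; exact lt_of_le_of_lt hxy h3
    rw [setLIntegral_congr_fun measurableSet_Ico e1]
    have hms : MeasurableSet {ρ : ℝ | |x| < 2^j * ρ ∧ ¬ |y| < 2^j * ρ} := by
      apply MeasurableSet.inter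
      · exact measurableSet_lt (f := fun _ : ℝ => |x|) (g := fun ρ : ℝ => 2^j * ρ)
          measurable_const (by fun_prop)
      · exact (measurableSet_lt (f := fun _ : ℝ => |y|) (g := fun ρ : ℝ => 2^j * ρ)
          measurable_const (by fun_prop)).compl
    rw [lintegral_indicator hms, lintegral_const, Measure.restrict_restrict hms,
      Measure.restrict_apply_univ, ← mul_assoc]
    gcongr
    rw [show (32:ℝ≥0∞) = ENNReal.ofReal 32 by simp, ← ENNReal.ofReal_mul (by norm_num)]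
    apply ENNReal.ofReal_le_ofReal
    have e5 : (16 * 2^(j+1) : ℝ) = 32 * 2^j := by ring
    rw [e5, Real.mul_rpow (by norm_num) (by positivity)]
    have e6 : ((2:ℝ)^j)^q = ((2:ℝ)^q)^j := by
      rw [← Real.rpow_natCast, ← Real.rpow_natCast, ← Real.rpow_mul (by norm_num),
        ← Real.rpow_mul (by norm_num), mul_comm]
    rw [e6]
    gcongr
    calc (32:ℝ)^q ≤ 32^(1:ℝ) := Real.rpow_le_rpow_of_exponent_le (by norm_num) hq1.le
      _ = 32 := by norm_num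
  refine (ENNReal.tsum_le_tsum hterm).trans ?_
  rw [ENNReal.tsum_mul_left]
  have := ann_sum hq hq1 |x| |y| (abs_nonneg x) hxy
  calc _ ≤ 32 * ENNReal.ofReal (16 * (|y| - |x|)^q) := by gcongr
    _ = ENNReal.ofReal (32 * (16 * (|y| - |x|)^q)) := by
      rw [show (32:ℝ≥0∞) = ENNReal.ofReal 32 by simp, ← ENNReal.ofReal_mul (by norm_num)]
    _ ≤ _ := by
      apply ENNReal.ofReal_le_ofReal
      have : (|y| - |x|)^q ≤ |x - y|^q := by
        apply Real.rpow_le_rpow (by linarith) _ (by linarith)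
        rw [abs_sub_comm]; exact abs_sub_abs_le_abs_sub y x
      linarith

lemma int_T0 {q : ℝ} (hq : 1/2 ≤ q) (hq1 : q < 1) (x y : ℝ) :
    ∫⁻ ρ in Ico (1:ℝ) 2, T0 q ρ x y ≤ ENNReal.ofReal (512 * |x - y|^q) := by
  rcases le_total |x| |y| with h | h
  · exact int_T0_aux hq hq1 x y h
  · simp only [T0_symm q _ x y]
    rw [abs_sub_comm]
    exact int_T0_aux hq hq1 y x h

/-- expected separation cost of a pair of points. -/
lemma int_all {M M' : ℕ} (hMM : M = 4 * M') (hM' : 1 ≤ M') {q : ℝ} (hq : 1/2 ≤ q) (hq1 : q < 1)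
    (h1 : (M:ℝ)^(1-q) ≤ 4) (h1' : 2 ≤ (M:ℝ)^(1-q)) (h2 : 2 ≤ (M:ℝ)^q) (x y : ℝ) :
    ∫⁻ ρ in Ico (1:ℝ) 2, ∫⁻ s in Ico (0:ℝ) 1, ∑' k, TT M q (ρ, s) k x y ≤
      ENNReal.ofReal (17056 * |x - y|^q) := by
  calc _ ≤ ∫⁻ ρ in Ico (1:ℝ) 2, (ENNReal.ofReal (160 * |x - y|^q) + 33 * T0 q ρ x y) := by
        apply setLIntegral_mono' measurableSet_Ico
        intro ρ hρ
        exact int_s hMM hM' hq hq1 h1 h1' h2 hρ.1 hρ.2 x y
    _ = ENNReal.ofReal (160 * |x - y|^q) + 33 * ∫⁻ ρ in Ico (1:ℝ) 2, T0 q ρ x y := by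
        rw [lintegral_add_left measurable_const, lintegral_const_mul' _ _ (by norm_num)]
        congr 1
        rw [lintegral_const, Measure.restrict_apply_univ, Real.volume_Ico]
        norm_num
    _ ≤ ENNReal.ofReal (160 * |x - y|^q) + 33 * ENNReal.ofReal (512 * |x - y|^q) := by
        gcongr
        exact int_T0 hq hq1 x y
    _ = _ := by
        rw [show (33:ℝ≥0∞) = ENNReal.ofReal 33 by simp, ← ENNReal.ofReal_mul (by norm_num),
          ← ENNReal.ofReal_add (by positivity) (by positivity)]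
        congr 1; ring

end Pool.Agent.X101.CR
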