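import Mathlib

open MeasureTheory Set ProbabilityTheory
open scoped ENNReal

namespace Pool.Agent.X101.CR

abbrev E := ℕ × ℕ

noncomputable def gg (P : Measure ℝ) (c : ℕ → ℝ → E) (k : ℕ) (w : E) : ℝ :=
  P.real {x | c k x = w}

noncomputable def SS (P : Measure ℝ) (c : ℕ → ℝ → E) (e : ℕ → ℝ → ℕ) (k : ℕ) (w : E) (i : ℕ) : ℝ :=
  P.real {x | c k x = w ∧ e k x < i}

noncomputable def dg (P : Measure ℝ) (c : ℕ → ℝ → E) (e : ℕ → ℝ → ℕ) (k : ℕ) (w : E) (u : ℝ) : ℕ :=
  sInf {j : ℕ | u * gg P c k w < SS P c e k w (j+1)}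

noncomputable def WW (P : Measure ℝ) (c : ℕ → ℝ → E) (e : ℕ → ℝ → ℕ) (st : ℕ → E → ℕ → E)
    (U : ℕ → ℝ) : ℕ → E
  | 0 => (0,0)
  | k+1 => st k (WW P c e st U k) (dg P c e k (WW P c e st U k) (U k))

/-- uniform measure on `[0,1)`. -/
noncomputable def lam : Measure ℝ := volume.restrict (Ico (0:ℝ) 1)

instance : IsProbabilityMeasure lam := ⟨by simp [lam]⟩

noncomputable def muU : Measure (ℕ → ℝ) := Measure.infinitePi (fun _ : ℕ => lam)

instance : IsProbabilityMeasure muU := by unfold muU; infer_instance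

lemma meas_sInf {α : Type*} [MeasurableSpace α] {p : α → ℕ → Prop}
    (hm : ∀ k, MeasurableSet {x | p x k}) : Measurable (fun x => sInf {j | p x j}) := by
  classical
  have key : (fun x => sInf {j | p x j}) =
      (fun x => Nat.find (p := fun j => p x j ∨ ∀ i, ¬ p x i)
        (by by_cases h : ∃ j, p x j
            · obtain ⟨j, hj⟩ := h; exact ⟨j, Or.inl hj⟩
            · push Not at h; exact ⟨0, Or.inr h⟩)) := by
    funext x
    by_cases h : ∃ j, p x j
    · have h' : (Set.Nonempty {j | p x j}) := h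
      rw [Nat.sInf_def h']
      apply le_antisymm
      · apply Nat.find_min'
        have := Nat.find_spec (p := fun j => p x j ∨ ∀ i, ¬ p x i)
          (by obtain ⟨j, hj⟩ := h; exact ⟨j, Or.inl hj⟩)
        rcases this with h1 | h1
        · exact h1
        · obtain ⟨j, hj⟩ := h; exact absurd hj (h1 j)
      · apply Nat.find_min'
        exact Or.inl (Nat.find_spec h')
    · push Not at h
      have : {j | p x j} = ∅ := by ext j; simp [h j]
      rw [this, Nat.sInf_empty]
      symm
      rw [Nat.find_eq_zero]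
      exact Or.inr h
  rw [key]
  apply measurable_find
  intro k
  have : {x | p x k ∨ ∀ i, ¬ p x i} = {x | p x k} ∪ ⋂ i, {x | p x i}ᶜ := by
    ext x; simp
  rw [this]
  exact (hm k).union (MeasurableSet.iInter fun i => (hm i).compl)

section
variable {Θ : Type*} [MeasurableSpace Θ] (P : Measure ℝ) [IsProbabilityMeasure P]
  {c : Θ → ℕ → ℝ → E} {e : Θ → ℕ → ℝ → ℕ} (st : ℕ → E → ℕ → E)

lemma meas_gg (hc : ∀ k, Measurable (fun p : Θ × ℝ => c p.1 k p.2)) (k : ℕ) :
    Measurable (fun p : Θ × E => gg P (c p.1) k p.2) := by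
  apply measurable_from_prod_countable_left
  intro w
  have hs : MeasurableSet {p : Θ × ℝ | c p.1 k p.2 = w} := (hc k) (measurableSet_singleton w)
  exact (measurable_measure_prodMk_left (ν := P) hs).ennreal_toReal

lemma meas_SS (hc : ∀ k, Measurable (fun p : Θ × ℝ => c p.1 k p.2))
    (he : ∀ k, Measurable (fun p : Θ × ℝ => e p.1 k p.2)) (k i : ℕ) :
    Measurable (fun p : Θ × E => SS P (c p.1) (e p.1) k p.2 i) := by
  apply measurable_from_prod_countable_left
  intro w
  have hs : MeasurableSet {p : Θ × ℝ | c p.1 k p.2 = w ∧ e p.1 k p.2 < i} :=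
    ((hc k) (measurableSet_singleton w)).inter ((he k) (measurableSet_Iio (a := i)))
  exact (measurable_measure_prodMk_left (ν := P) hs).ennreal_toReal

lemma meas_dg (hc : ∀ k, Measurable (fun p : Θ × ℝ => c p.1 k p.2))
    (he : ∀ k, Measurable (fun p : Θ × ℝ => e p.1 k p.2)) (k : ℕ) :
    Measurable (fun p : (Θ × E) × ℝ => dg P (c p.1.1) (e p.1.1) k p.1.2 p.2) := by
  apply meas_sInf
  intro j
  exact measurableSet_lt (measurable_snd.mul ((meas_gg P hc k).comp measurable_fst))
    ((meas_SS P hc he k (j+1)).comp measurable_fst)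

lemma meas_WW (hc : ∀ k, Measurable (fun p : Θ × ℝ => c p.1 k p.2))
    (he : ∀ k, Measurable (fun p : Θ × ℝ => e p.1 k p.2)) (k : ℕ) :
    Measurable (fun p : Θ × (ℕ → ℝ) => WW P (c p.1) (e p.1) st p.2 k) := by
  induction k with
  | zero => exact measurable_const
  | succ k ih =>
    have hst : Measurable (fun p : E × ℕ => st k p.1 p.2) := measurable_of_countable _
    have h1 : Measurable (fun p : Θ × (ℕ → ℝ) =>
        dg P (c p.1) (e p.1) k (WW P (c p.1) (e p.1) st p.2 k) (p.2 k)) :=
      (meas_dg P hc he k).comp ((measurable_fst.prodMk ih).prodMk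
        ((measurable_pi_apply k).comp measurable_snd))
    exact hst.comp (ih.prodMk h1)

end

section
variable (P : Measure ℝ) [IsProbabilityMeasure P]
  {c : ℕ → ℝ → E} {e : ℕ → ℝ → ℕ} (st : ℕ → E → ℕ → E)

lemma WW_local (U U' : ℕ → ℝ) (k : ℕ) (h : ∀ i < k, U i = U' i) :
    WW P c e st U k = WW P c e st U' k := by
  induction k with
  | zero => rfl
  | succ k ih =>
    have := ih (fun i hi => h i (by omega))
    simp only [WW]
    rw [this, h k (by omega)]

lemma meas_WW' (hc : ∀ k, Measurable (c k)) (he : ∀ k, Measurable (e k)) (k : ℕ) :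
    Measurable (fun U => WW P c e st U k) := by
  have := meas_WW (Θ := Unit) (c := fun _ => c) (e := fun _ => e) P st
    (fun k => (hc k).comp measurable_snd) (fun k => (he k).comp measurable_snd) k
  exact this.comp (measurable_const.prodMk measurable_id : Measurable (fun U : ℕ → ℝ => ((), U)))

lemma meas_dg' (hc : ∀ k, Measurable (c k)) (he : ∀ k, Measurable (e k)) (k : ℕ) (w : E) :
    Measurable (fun u => dg P c e k w u) := by
  have := meas_dg (Θ := Unit) (c := fun _ => c) (e := fun _ => e) P
    (fun k => (hc k).comp measurable_snd) (fun k => (he k).comp measurable_snd) k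
  exact this.comp (measurable_const.prodMk measurable_id : Measurable (fun u : ℝ => (((), w), u)))

lemma indep_WW (hc : ∀ k, Measurable (c k)) (he : ∀ k, Measurable (e k)) (k : ℕ) :
    IndepFun (fun U => WW P c e st U k) (fun U : ℕ → ℝ => U k) muU := by
  have h0 : iIndepFun (fun (i : ℕ) (U : ℕ → ℝ) => id (U i)) muU :=
    iIndepFun_infinitePi (P := fun _ : ℕ => lam) (X := fun _ => id) (fun _ => measurable_id)
  have h1 := h0.indepFun_finset (Finset.range k) {k} (by simp) (fun i => measurable_pi_apply i)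
  let φ : ((Finset.range k) → ℝ) → E := fun v =>
    WW P c e st (fun i => if h : i ∈ Finset.range k then v ⟨i, h⟩ else 0) k
  let ψ : (({k} : Finset ℕ) → ℝ) → ℝ := fun v => v ⟨k, by simp⟩
  have hφ : Measurable φ := by
    apply (meas_WW' P st hc he k).comp
    rw [measurable_pi_iff]
    intro i
    by_cases h : i ∈ Finset.range k
    · simp only [h, dif_pos]; exact measurable_pi_apply _
    · simp only [h, dif_neg, not_false_eq_true]; exact measurable_const
  have hψ : Measurable ψ := measurable_pi_apply _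
  have h2 := h1.comp hφ hψ
  have e1 : (fun U => WW P c e st U k) = (φ ∘ fun (a : ℕ → ℝ) (i : (Finset.range k)) => id (a ↑i)) := by
    funext U
    apply WW_local
    intro i hi
    simp [hi]
  rw [e1]
  exact h2

lemma indep_set (hc : ∀ k, Measurable (c k)) (he : ∀ k, Measurable (e k)) (k : ℕ) (w : E)
    {B : Set ℝ} (hB : MeasurableSet B) :
    muU {U | WW P c e st U k = w ∧ U k ∈ B} = muU {U | WW P c e st U k = w} * lam B := by
  have h := (indep_WW P st hc he k).measure_inter_preimage_eq_mul {w} B
    (measurableSet_singleton w) hB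
  have h3 : muU ((fun U : ℕ → ℝ => U k) ⁻¹' B) = lam B := by
    have := (Measure.infinitePi_map_eval (fun _ : ℕ => lam) k)
    rw [← this, Measure.map_apply (measurable_pi_apply k) hB]
    rfl
  rw [h3] at h
  exact h

lemma SS_mono (k : ℕ) (w : E) {i j : ℕ} (h : i ≤ j) : SS P c e k w i ≤ SS P c e k w j := by
  refine measureReal_mono ?_ (measure_ne_top _ _)
  intro x hx
  exact ⟨hx.1, lt_of_lt_of_le hx.2 h⟩

lemma SS_le_gg (k : ℕ) (w : E) (i : ℕ) : SS P c e k w i ≤ gg P c k w := by
  refine measureReal_mono ?_ (measure_ne_top _ _)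
  intro x hx
  exact hx.1

lemma SS_zero (k : ℕ) (w : E) : SS P c e k w 0 = 0 := by simp [SS]

lemma exists_SS (k : ℕ) (w : E) (hg : 0 < gg P c k w) {u : ℝ} (hu : u < 1) :
    ∃ j, u * gg P c k w < SS P c e k w (j+1) := by
  by_contra hcon
  push Not at hcon
  have h1 : Filter.Tendsto (fun i => P {x | c k x = w ∧ e k x < i}) Filter.atTop
      (nhds (P (⋃ i : ℕ, {x | c k x = w ∧ e k x < i}))) := by
    apply tendsto_measure_iUnion_atTop
    intro i j hij x hx
    exact ⟨hx.1, lt_of_lt_of_le hx.2 hij⟩
  have h2 : (⋃ i : ℕ, {x | c k x = w ∧ e k x < i}) = {x | c k x = w} := by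
    ext x
    simp only [mem_iUnion, mem_ofPred_eq]
    constructor
    · rintro ⟨i, hi⟩; exact hi.1
    · intro h; exact ⟨e k x + 1, h, by omega⟩
  rw [h2] at h1
  have h3 : Filter.Tendsto (fun i => SS P c e k w i) Filter.atTop (nhds (gg P c k w)) := by
    exact (ENNReal.tendsto_toReal (measure_ne_top _ _)).comp h1
  have h4 : gg P c k w ≤ u * gg P c k w := by
    refine le_of_tendsto (h3.comp (Filter.tendsto_add_atTop_nat 1)) ?_
    exact Filter.Eventually.of_forall hcon
  nlinarith

lemma dg_lt_iff (k : ℕ) (w : E) (hg : 0 < gg P c k w) {u : ℝ} (hu : u < 1) {i : ℕ} (hi : 1 ≤ i) :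
    dg P c e k w u < i ↔ u * gg P c k w < SS P c e k w i := by
  constructor
  · intro h
    have hne : (Set.Nonempty {j : ℕ | u * gg P c k w < SS P c e k w (j+1)}) :=
      exists_SS P k w hg hu
    have h1 := Nat.sInf_mem hne
    exact lt_of_lt_of_le h1 (SS_mono P k w h)
  · intro h
    obtain ⟨j, rfl⟩ : ∃ j, i = j + 1 := ⟨i - 1, by omega⟩
    have : dg P c e k w u ≤ j := Nat.sInf_le h
    omega

lemma lam_dg (k : ℕ) (w : E) (hg : 0 < gg P c k w) (i : ℕ) :
    lam {u | dg P c e k w u < i} = ENNReal.ofReal (SS P c e k w i / gg P c k w) := by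
  rcases Nat.eq_zero_or_pos i with hi | hi
  · subst hi; simp [SS_zero]
  · unfold lam
    rw [Measure.restrict_apply' measurableSet_Ico]
    have : {u | dg P c e k w u < i} ∩ Ico 0 1 = Ico 0 (SS P c e k w i / gg P c k w) := by
      ext u
      simp only [mem_inter_iff, mem_ofPred_eq, mem_Ico]
      constructor
      · rintro ⟨h1, h2, h3⟩
        rw [dg_lt_iff P k w hg h3 hi] at h1
        exact ⟨h2, by rwa [lt_div_iff₀ hg]⟩
      · rintro ⟨h1, h2⟩
        have h3 : u < 1 := lt_of_lt_of_le h2 (by rw [div_le_one hg]; exact SS_le_gg P k w i)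
        exact ⟨by rw [dg_lt_iff P k w hg h3 hi]; rwa [lt_div_iff₀ hg] at h2, h1, h3⟩
    rw [this, Real.volume_Ico, sub_zero]

lemma joint_lt (hc : ∀ k, Measurable (c k)) (he : ∀ k, Measurable (e k)) (k : ℕ)
    (ih : ∀ w, muU {U | WW P c e st U k = w} = P {x | c k x = w}) (w : E) (i : ℕ) :
    muU {U | WW P c e st U k = w ∧ dg P c e k w (U k) < i} = P {x | c k x = w ∧ e k x < i} := by
  have hB : MeasurableSet {u | dg P c e k w u < i} :=
    (meas_dg' P hc he k w) (measurableSet_Iio (a := i))
  have h1 := indep_set P st hc he k w hB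
  simp only [mem_ofPred_eq] at h1
  rw [h1, ih w]
  rcases (measureReal_nonneg : 0 ≤ P.real {x | c k x = w}).lt_or_eq with hg | hg
  · rw [lam_dg P k w hg]
    have e1 : P {x | c k x = w} = ENNReal.ofReal (gg P c k w) := by
      simp [gg, Measure.real]
    have e2 : P {x | c k x = w ∧ e k x < i} = ENNReal.ofReal (SS P c e k w i) := by
      simp [SS, Measure.real]
    rw [e1, e2, ← ENNReal.ofReal_mul (by exact measureReal_nonneg)]
    congr 1
    have : gg P c k w ≠ 0 := ne_of_gt hg
    field_simp
  · have h0 : P {x | c k x = w} = 0 := by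
      have := hg.symm
      rwa [measureReal_eq_zero_iff] at this
    rw [h0, zero_mul]
    symm
    exact measure_mono_null (fun x hx => hx.1) h0

lemma seq_law (hc : ∀ k, Measurable (c k)) (he : ∀ k, Measurable (e k))
    (h0 : ∀ x, c 0 x = (0,0)) (hstep : ∀ k x, c (k+1) x = st k (c k x) (e k x)) (k : ℕ) :
    ∀ w, muU {U | WW P c e st U k = w} = P {x | c k x = w} := by
  induction k with
  | zero =>
    intro w
    by_cases hw : w = (0,0)
    · subst hw; simp [WW, h0]
    · simp [WW, h0, Ne.symm hw]
  | succ k ih =>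
    intro w
    have hj : ∀ (v : E) (j : ℕ), muU {U | WW P c e st U k = v ∧ dg P c e k v (U k) = j} =
        P {x | c k x = v ∧ e k x = j} := by
      intro v j
      have a1 := joint_lt P st hc he k ih v (j+1)
      have a2 := joint_lt P st hc he k ih v j
      have b1 : {U | WW P c e st U k = v ∧ dg P c e k v (U k) = j} =
          {U | WW P c e st U k = v ∧ dg P c e k v (U k) < j+1} \
          {U | WW P c e st U k = v ∧ dg P c e k v (U k) < j} := by
        ext U; simp only [mem_ofPred_eq, mem_sdiff]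
        constructor
        · rintro ⟨h1, h2⟩; exact ⟨⟨h1, by omega⟩, fun h => by omega⟩
        · rintro ⟨⟨h1, h2⟩, h3⟩
          refine ⟨h1, ?_⟩
          by_contra hne
          exact h3 ⟨h1, by omega⟩
      have b2 : {x | c k x = v ∧ e k x = j} =
          {x | c k x = v ∧ e k x < j+1} \ {x | c k x = v ∧ e k x < j} := by
        ext U; simp only [mem_ofPred_eq, mem_sdiff]
        constructor
        · rintro ⟨h1, h2⟩; exact ⟨⟨h1, by omega⟩, fun h => by omega⟩
        · rintro ⟨⟨h1, h2⟩, h3⟩
          refine ⟨h1, ?_⟩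
          by_contra hne
          exact h3 ⟨h1, by omega⟩
      rw [b1, b2, measure_sdiff, measure_sdiff, a1, a2]
      · intro x hx; exact ⟨hx.1, by have := hx.2; omega⟩
      · exact (((hc k) (measurableSet_singleton v)).inter
          ((he k) (measurableSet_Iio (a := j)))).nullMeasurableSet
      · exact measure_ne_top _ _
      · intro x hx; exact ⟨hx.1, by have := hx.2; omega⟩
      · exact (((meas_WW' P st hc he k) (measurableSet_singleton v)).inter
          (((meas_dg' P hc he k v).comp (measurable_pi_apply k))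
            (measurableSet_Iio (a := j)))).nullMeasurableSet
      · exact measure_ne_top _ _
    have c1 : {U | WW P c e st U (k+1) = w} = ⋃ p : {p : E × ℕ // st k p.1 p.2 = w},
        {U | WW P c e st U k = p.1.1 ∧ dg P c e k p.1.1 (U k) = p.1.2} := by
      ext U
      simp only [mem_ofPred_eq, mem_iUnion, WW]
      constructor
      · intro h; exact ⟨⟨(_, _), h⟩, rfl, rfl⟩
      · rintro ⟨⟨⟨v, j⟩, hp⟩, h1, h2⟩
        simp only at h1 h2 hp
        rw [h1, h2, hp]
    have c2 : {x | c (k+1) x = w} = ⋃ p : {p : E × ℕ // st k p.1 p.2 = w},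
        {x | c k x = p.1.1 ∧ e k x = p.1.2} := by
      ext x
      simp only [mem_ofPred_eq, mem_iUnion, hstep]
      constructor
      · intro h; exact ⟨⟨(_, _), h⟩, rfl, rfl⟩
      · rintro ⟨⟨⟨v, j⟩, hp⟩, h1, h2⟩
        simp only at h1 h2 hp
        rw [h1, h2, hp]
    rw [c1, c2, measure_iUnion, measure_iUnion]
    · congr 1; funext p; exact hj _ _
    · intro p p' hpp'
      rw [Function.onFun, Set.disjoint_left]
      rintro x ⟨h1, h2⟩ ⟨h3, h4⟩
      apply hpp'
      ext
      · rw [← h1, h3]
      · rw [← h1, h3]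
      · rw [← h2, h4]
    · intro p
      exact ((hc k) (measurableSet_singleton _)).inter ((he k) (measurableSet_singleton _))
    · intro p p' hpp'
      rw [Function.onFun, Set.disjoint_left]
      rintro x ⟨h1, h2⟩ ⟨h3, h4⟩
      have h13 : p.1.1 = p'.1.1 := by rw [← h1, h3]
      apply hpp'
      ext
      · rw [h13]
      · rw [h13]
      · rw [← h2, ← h4, h13]
    · intro p
      exact ((meas_WW' P st hc he k) (measurableSet_singleton _)).inter
        (((meas_dg' P hc he k p.1.1).comp (measurable_pi_apply k)) (measurableSet_singleton _))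

lemma sep_le (Q : Measure ℝ) [IsProbabilityMeasure Q]
    (hc : ∀ k, Measurable (c k)) (he : ∀ k, Measurable (e k))
    (h0 : ∀ x, c 0 x = (0,0)) (hstep : ∀ k x, c (k+1) x = st k (c k x) (e k x)) (k : ℕ)
    (w : E) (i : ℕ) :
    muU {U | WW P c e st U k = w ∧ WW Q c e st U k = w ∧
      ¬ (dg P c e k w (U k) < i ↔ dg Q c e k w (U k) < i)} ≤
    ENNReal.ofReal (|SS P c e k w i - SS Q c e k w i| + |gg P c k w - gg Q c k w|) := by
  rcases Nat.eq_zero_or_pos i with hi | hi
  · subst hi; simp
  rcases (measureReal_nonneg : 0 ≤ P.real {x | c k x = w}).lt_or_eq with hg | hg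
  swap
  · have h0' : P {x | c k x = w} = 0 := by
      have := hg.symm
      rwa [measureReal_eq_zero_iff] at this
    have h1 := seq_law P st hc he h0 hstep k w
    rw [h0'] at h1
    rw [measure_mono_null (fun U hU => hU.1) h1]
    exact bot_le
  rcases (measureReal_nonneg : 0 ≤ Q.real {x | c k x = w}).lt_or_eq with hg' | hg'
  swap
  · have h0' : Q {x | c k x = w} = 0 := by
      have := hg'.symm
      rwa [measureReal_eq_zero_iff] at this
    have h1 := seq_law Q st hc he h0 hstep k w
    rw [h0'] at h1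
    rw [measure_mono_null (fun U hU => hU.2.1) h1]
    exact bot_le
  change 0 < gg P c k w at hg
  change 0 < gg Q c k w at hg'
  set B : Set ℝ := {u | ¬ (dg P c e k w u < i ↔ dg Q c e k w u < i)} with hBdef
  have hB : MeasurableSet B := by
    have m1 : MeasurableSet {u | dg P c e k w u < i} :=
      (meas_dg' P hc he k w) (measurableSet_Iio (a := i))
    have m2 : MeasurableSet {u | dg Q c e k w u < i} :=
      (meas_dg' Q hc he k w) (measurableSet_Iio (a := i))
    have : B = ({u | dg P c e k w u < i} \ {u | dg Q c e k w u < i}) ∪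
        ({u | dg Q c e k w u < i} \ {u | dg P c e k w u < i}) := by
      ext u; simp only [hBdef, mem_ofPred_eq, mem_union, mem_sdiff]; tauto
    rw [this]
    exact (m1.diff m2).union (m2.diff m1)
  have hle : muU {U | WW P c e st U k = w ∧ WW Q c e st U k = w ∧
      ¬ (dg P c e k w (U k) < i ↔ dg Q c e k w (U k) < i)} ≤
      muU {U | WW P c e st U k = w ∧ U k ∈ B} := by
    apply measure_mono
    intro U hU
    exact ⟨hU.1, hU.2.2⟩
  refine hle.trans ?_
  rw [indep_set P st hc he k w hB, seq_law P st hc he h0 hstep k w]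
  have e1 : P {x | c k x = w} = ENNReal.ofReal (gg P c k w) := by
    simp [gg, Measure.real]
  set a := SS P c e k w i with ha
  set b := SS Q c e k w i with hb
  set p := gg P c k w with hp
  set r := gg Q c k w with hr
  have hlamB : lam B ≤ ENNReal.ofReal (|a / p - b / r|) := by
    unfold lam
    rw [Measure.restrict_apply' measurableSet_Ico]
    have : B ∩ Ico 0 1 ⊆ Ico (min (a/p) (b/r)) (max (a/p) (b/r)) := by
      rintro u ⟨h1, h2, h3⟩
      simp only [hBdef, mem_ofPred_eq] at h1
      rw [dg_lt_iff P k w hg h3 hi, dg_lt_iff Q k w hg' h3 hi] at h1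
      rw [← hp, ← hr, ← ha, ← hb, ← lt_div_iff₀ hg, ← lt_div_iff₀ hg'] at h1
      rw [mem_Ico, min_le_iff, lt_max_iff]
      by_cases q1 : u < a / p
      · by_cases q2 : u < b / r
        · exact absurd (by tauto) h1
        · exact ⟨Or.inr (not_lt.mp q2), Or.inl q1⟩
      · by_cases q2 : u < b / r
        · exact ⟨Or.inl (not_lt.mp q1), Or.inr q2⟩
        · exact absurd (by tauto) h1
    refine (measure_mono this).trans ?_
    rw [Real.volume_Ico, max_sub_min_eq_abs']
  have hb0 : 0 ≤ b := measureReal_nonneg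
  have hbr : b ≤ r := SS_le_gg Q k w i
  calc P {x | c k x = w} * lam B ≤ ENNReal.ofReal p * ENNReal.ofReal (|a / p - b / r|) := by
        rw [e1]; gcongr
    _ = ENNReal.ofReal (p * |a / p - b / r|) := by
        rw [ENNReal.ofReal_mul hg.le]
    _ ≤ _ := by
        apply ENNReal.ofReal_le_ofReal
        have k1 : p * |a / p - b / r| = |(a - b) + (b / r) * (r - p)| := by
          rw [← abs_of_pos hg, ← abs_mul, abs_of_pos hg]
          congr 1
          field_simp
          ring
        rw [k1]
        refine (abs_add_le _ _).trans ?_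
        rw [abs_mul]
        have k2 : |b / r| ≤ 1 := by
          rw [abs_of_nonneg (by positivity), div_le_one hg']; exact hbr
        have k3 : |r - p| = |p - r| := abs_sub_comm _ _
        rw [k3]
        nlinarith [abs_nonneg (p - r), abs_nonneg (b / r)]

end

end Pool.Agent.X101.CR
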